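import Mathlib
import Pool.Agent.K9h17.L.GLd

/-!
# Irreducible representations of the general linear Lie algebra with the same weight

Two irreducible representations of the Lie algebra of all `d × d` matrices, where the diagonal matrix
units act as idempotents, are isomorphic if they have a weight in common. The proof compares the
coefficients of all products of the matrix units at the weight vector.
-/

set_option linter.unusedSectionVars false

namespace Pool.Agent.K9h17.F

open Matrix Module
open Pool.Agent.K9h17.L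

noncomputable section

variable {B : Type*} [Fintype B] [DecidableEq B] {C : Type*} [Fintype C] [DecidableEq C] {d : ℕ}

/-- The product of the matrices along a word. -/
def W (E : Fin d → Fin d → Matrix B B ℂ) (w : List (Fin d × Fin d)) : Matrix B B ℂ :=
  (w.map fun x => E x.1 x.2).prod

theorem W_nil (E : Fin d → Fin d → Matrix B B ℂ) : W E [] = 1 := rfl

theorem W_cons (E : Fin d → Fin d → Matrix B B ℂ) (x : Fin d × Fin d)
    (w : List (Fin d × Fin d)) : W E (x :: w) = E x.1 x.2 * W E w := by
  unfold W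
  rw [List.map_cons, List.prod_cons]

theorem W_append (E : Fin d → Fin d → Matrix B B ℂ) (w w' : List (Fin d × Fin d)) :
    W E (w ++ w') = W E w * W E w' := by
  unfold W
  rw [List.map_append, List.prod_append]

/-- A vector `v` of weight `S` and a functional `φ` of weight `S` with `φ v = 1`. -/
structure Wt (E : Fin d → Fin d → Matrix B B ℂ) (R : Matrix B B ℂ) (S : Finset (Fin d))
    (v : B → ℂ) (φ : (B → ℂ) →ₗ[ℂ] ℂ) : Prop where
  Rv : R *ᵥ v = v
  Rφ : ∀ u, φ (R *ᵥ u) = φ u
  hv : ∀ i, E i i *ᵥ v = if i ∈ S then v else 0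
  hφ : ∀ i u, φ (E i i *ᵥ u) = if i ∈ S then φ u else 0
  one : φ v = 1

variable {E : Fin d → Fin d → Matrix B B ℂ} {R : Matrix B B ℂ} (h : GLd E R)
  {S : Finset (Fin d)} {v : B → ℂ} {φ : (B → ℂ) →ₗ[ℂ] ℂ}

include h in
/-- The matrix units which kill a vector of weight `S`. -/
theorem kill (hv : ∀ i, E i i *ᵥ v = if i ∈ S then v else 0) {i j : Fin d} (hij : i ≠ j)
    (hS : i ∈ S ∨ j ∉ S) : E i j *ᵥ v = 0 := by
  rcases hS with hS | hS
  · have h1 := hv i
    rw [if_pos hS] at h1
    rw [← h1, mulVec_mulVec, (h.up hij.symm).2, zero_mulVec]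
  · have h1 := hv j
    rw [if_neg hS] at h1
    rw [← (h.dn hij).1, ← mulVec_mulVec, h1, mulVec_zero]

include h in
/-- The matrix units which are killed by a functional of weight `S`. -/
theorem kill' (hφ : ∀ i u, φ (E i i *ᵥ u) = if i ∈ S then φ u else 0) {i j : Fin d} (hij : i ≠ j)
    (hS : i ∉ S ∨ j ∈ S) (u : B → ℂ) : φ (E i j *ᵥ u) = 0 := by
  rcases hS with hS | hS
  · have h1 := hφ i (E i j *ᵥ u)
    rwa [if_neg hS, mulVec_mulVec, (h.up hij.symm).1] at h1
  · have h1 := hφ j (E i j *ᵥ u)
    rw [if_pos hS, mulVec_mulVec, (h.dn hij).2, zero_mulVec, map_zero] at h1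
    exact h1.symm

variable {E' : Fin d → Fin d → Matrix C C ℂ} {R' : Matrix C C ℂ} (h' : GLd E' R')
  {v' : C → ℂ} {φ' : (C → ℂ) →ₗ[ℂ] ℂ}

include h h' in
/-- **The coefficients of the products at the weight vector are determined by the weight.** -/
theorem universal (k : Wt E R S v φ) (k' : Wt E' R' S v' φ') :
    ∀ (n : ℕ) (w : List (Fin d × Fin d)), w.length ≤ n →
      φ (W E w *ᵥ v) = φ' (W E' w *ᵥ v') := by
  intro n
  induction n with
  | zero =>
    intro w hw
    have h1 : w = [] := List.length_eq_zero_iff.1 (by omega)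
    rw [h1, W_nil, W_nil, one_mulVec, one_mulVec, k.one, k'.one]
  | succ n ih =>
    intro w hw
    rcases w with _ | ⟨⟨i, j⟩, w1⟩
    · rw [W_nil, W_nil, one_mulVec, one_mulVec, k.one, k'.one]
    rw [List.length_cons] at hw
    rw [W_cons, W_cons, ← mulVec_mulVec, ← mulVec_mulVec]
    change φ (E i j *ᵥ _) = φ' (E' i j *ᵥ _)
    by_cases hij : i = j
    · subst hij
      rw [k.hφ, k'.hφ, ih w1 (by omega)]
    by_cases hi : i ∈ S
    swap
    · rw [kill' h k.hφ hij (Or.inl hi), kill' h' k'.hφ hij (Or.inl hi)]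
    by_cases hj : j ∈ S
    · rw [kill' h k.hφ hij (Or.inr hj), kill' h' k'.hφ hij (Or.inr hj)]
    have key : ∀ (w1 w0 : List (Fin d × Fin d)), w0.length + w1.length ≤ n →
        φ ((W E w0 * E i j * W E w1) *ᵥ v) = φ' ((W E' w0 * E' i j * W E' w1) *ᵥ v') := by
      intro w1
      induction w1 with
      | nil =>
        intro w0 _
        rw [W_nil, W_nil, mul_one, mul_one, ← mulVec_mulVec, ← mulVec_mulVec,
          kill h k.hv hij (Or.inl hi), kill h' k'.hv hij (Or.inl hi), mulVec_zero, mulVec_zero,
          map_zero, map_zero]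
      | cons x w2 ih2 =>
        obtain ⟨a, b⟩ := x
        intro w0 hw0
        rw [List.length_cons] at hw0
        have e1 : W E w0 * E i j * W E ((a, b) :: w2) =
            W E (w0 ++ [(a, b)]) * E i j * W E w2 +
              ((if j = a then W E (w0 ++ (i, b) :: w2) else 0) -
                (if b = i then W E (w0 ++ (a, j) :: w2) else 0)) := by
          have e2 := h.br i j a b
          rw [W_append, W_append, W_append, W_cons, W_cons, W_cons, W_cons, W_nil, mul_one]
          change W E w0 * E i j * (E a b * W E w2) = W E w0 * E a b * E i j * W E w2 +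
            ((if j = a then W E w0 * (E i b * W E w2) else 0) -
              (if b = i then W E w0 * (E a j * W E w2) else 0))
          have e3 : W E w0 * E i j * (E a b * W E w2) = W E w0 * E a b * E i j * W E w2 +
              W E w0 * (E i j * E a b - E a b * E i j) * W E w2 := by noncomm_ring
          rw [e3, e2]
          congr 1
          rw [mul_sub, sub_mul]
          congr 1
          · split_ifs
            · rw [mul_assoc]
            · rw [mul_zero, zero_mul]
          · split_ifs
            · rw [mul_assoc]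
            · rw [mul_zero, zero_mul]
        have e1' : W E' w0 * E' i j * W E' ((a, b) :: w2) =
            W E' (w0 ++ [(a, b)]) * E' i j * W E' w2 +
              ((if j = a then W E' (w0 ++ (i, b) :: w2) else 0) -
                (if b = i then W E' (w0 ++ (a, j) :: w2) else 0)) := by
          have e2 := h'.br i j a b
          rw [W_append, W_append, W_append, W_cons, W_cons, W_cons, W_cons, W_nil, mul_one]
          change W E' w0 * E' i j * (E' a b * W E' w2) = W E' w0 * E' a b * E' i j * W E' w2 +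
            ((if j = a then W E' w0 * (E' i b * W E' w2) else 0) -
              (if b = i then W E' w0 * (E' a j * W E' w2) else 0))
          have e3 : W E' w0 * E' i j * (E' a b * W E' w2) = W E' w0 * E' a b * E' i j * W E' w2 +
              W E' w0 * (E' i j * E' a b - E' a b * E' i j) * W E' w2 := by noncomm_ring
          rw [e3, e2]
          congr 1
          rw [mul_sub, sub_mul]
          congr 1
          · split_ifs
            · rw [mul_assoc]
            · rw [mul_zero, zero_mul]
          · split_ifs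
            · rw [mul_assoc]
            · rw [mul_zero, zero_mul]
        have l1 := ih (w0 ++ (i, b) :: w2) (by rw [List.length_append, List.length_cons]; omega)
        have l2 := ih (w0 ++ (a, j) :: w2) (by rw [List.length_append, List.length_cons]; omega)
        have l3 := ih2 (w0 ++ [(a, b)]) (by
          rw [List.length_append, List.length_cons, List.length_nil]; omega)
        rw [e1, e1', add_mulVec, add_mulVec, map_add, map_add, l3, sub_mulVec, sub_mulVec,
          map_sub, map_sub]
        congr 1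
        congr 1
        · split_ifs
          · exact l1
          · rw [zero_mulVec, zero_mulVec, map_zero, map_zero]
        · split_ifs
          · exact l2
          · rw [zero_mulVec, zero_mulVec, map_zero, map_zero]
    have h1 := key w1 [] (by rw [List.length_nil]; omega)
    rw [W_nil, W_nil, one_mul, one_mul, ← mulVec_mulVec, ← mulVec_mulVec] at h1
    exact h1

include h h' in
/-- An isomorphism, in one direction. -/
theorem exists_hom (k : Wt E R S v φ) (k' : Wt E' R' S v' φ') :
    ∃ T : Matrix C B ℂ, T * R = T ∧ (∀ i j, T * E i j = E' i j * T) ∧ T *ᵥ v = v' ∧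
      R' * T = T := by
  classical
  let π : (List (Fin d × Fin d) →₀ ℂ) →ₗ[ℂ] (B → ℂ) :=
    Finsupp.linearCombination ℂ fun w => W E w *ᵥ v
  let π' : (List (Fin d × Fin d) →₀ ℂ) →ₗ[ℂ] (C → ℂ) :=
    Finsupp.linearCombination ℂ fun w => W E' w *ᵥ v'
  have hπ : ∀ f, π f = f.sum fun w c => c • (W E w *ᵥ v) := fun f => rfl
  have hπ' : ∀ f, π' f = f.sum fun w c => c • (W E' w *ᵥ v') := fun f => rfl
  have hπ1 : ∀ w, π (Finsupp.single w 1) = W E w *ᵥ v := fun w => by
    change Finsupp.linearCombination ℂ _ _ = _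
    rw [Finsupp.linearCombination_single, one_smul]
  have hπ1' : ∀ w, π' (Finsupp.single w 1) = W E' w *ᵥ v' := fun w => by
    change Finsupp.linearCombination ℂ _ _ = _
    rw [Finsupp.linearCombination_single, one_smul]
  -- multiplication by a matrix unit
  have hc : ∀ (x : Fin d × Fin d) f, π (f.mapDomain (List.cons x)) = E x.1 x.2 *ᵥ π f := by
    intro x f
    change Finsupp.linearCombination ℂ _ _ = _
    rw [Finsupp.linearCombination_mapDomain, hπ, Finsupp.linearCombination_apply, Finsupp.sum,
      Finsupp.sum, mulVec_sum]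
    refine Finset.sum_congr rfl fun w _ => ?_
    change _ • (W E (x :: w) *ᵥ v) = _
    rw [W_cons, mulVec_smul, mulVec_mulVec]
  have hc' : ∀ (x : Fin d × Fin d) f, π' (f.mapDomain (List.cons x)) = E' x.1 x.2 *ᵥ π' f := by
    intro x f
    change Finsupp.linearCombination ℂ _ _ = _
    rw [Finsupp.linearCombination_mapDomain, hπ', Finsupp.linearCombination_apply, Finsupp.sum,
      Finsupp.sum, mulVec_sum]
    refine Finset.sum_congr rfl fun w _ => ?_
    change _ • (W E' (x :: w) *ᵥ v') = _
    rw [W_cons, mulVec_smul, mulVec_mulVec]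
  have hRW : ∀ w, R *ᵥ (W E w *ᵥ v) = W E w *ᵥ v := by
    intro w
    rcases w with _ | ⟨x, w⟩
    · rw [W_nil, one_mulVec, k.Rv]
    · rw [W_cons, mulVec_mulVec, ← mul_assoc, h.l]
  have hRW' : ∀ w, R' *ᵥ (W E' w *ᵥ v') = W E' w *ᵥ v' := by
    intro w
    rcases w with _ | ⟨x, w⟩
    · rw [W_nil, one_mulVec, k'.Rv]
    · rw [W_cons, mulVec_mulVec, ← mul_assoc, h'.l]
  have hRπ : ∀ f, R *ᵥ π f = π f := by
    intro f
    rw [hπ, Finsupp.sum, mulVec_sum]
    refine Finset.sum_congr rfl fun w _ => ?_
    rw [mulVec_smul, hRW]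
  have hRπ' : ∀ f, R' *ᵥ π' f = π' f := by
    intro f
    rw [hπ', Finsupp.sum, mulVec_sum]
    refine Finset.sum_congr rfl fun w _ => ?_
    rw [mulVec_smul, hRW']
  have hv0 : v ≠ 0 := by
    intro h1
    have h2 := k.one
    rw [h1, map_zero] at h2
    exact zero_ne_one h2
  have hall : ∀ u, R *ᵥ u = u → u ∈ LinearMap.range π := by
    rcases h.irr (LinearMap.range π) (by rintro _ ⟨f, rfl⟩; exact hRπ f) (by
      rintro i j _ ⟨f, rfl⟩
      exact ⟨_, hc (i, j) f⟩) with h1 | h1
    · exfalso
      have h2 : v ∈ LinearMap.range π := ⟨Finsupp.single [] 1, by rw [hπ1, W_nil, one_mulVec]⟩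
      rw [h1, Submodule.mem_bot] at h2
      exact hv0 h2
    · exact h1
  -- the kernel
  have hker : ∀ f, π f = 0 → π' f = 0 := by
    intro f hf
    let W' : Submodule ℂ (C → ℂ) :=
      { carrier := {u | R' *ᵥ u = u ∧ ∀ w, φ' (W E' w *ᵥ u) = 0}
        zero_mem' := ⟨mulVec_zero _, fun w => by rw [mulVec_zero, map_zero]⟩
        add_mem' := fun {x y} hx hy => ⟨by rw [mulVec_add, hx.1, hy.1], fun w => by
          rw [mulVec_add, map_add, hx.2, hy.2, add_zero]⟩
        smul_mem' := fun c x hx => ⟨by rw [mulVec_smul, hx.1], fun w => by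
          rw [mulVec_smul, map_smul, hx.2, smul_zero]⟩ }
    rcases h'.irr W' (fun u hu => hu.1) (fun i j u hu => ⟨by rw [mulVec_mulVec, h'.l], fun w => by
        have h1 := hu.2 (w ++ [(i, j)])
        rw [W_append, W_cons, W_nil, mul_one, ← mulVec_mulVec] at h1
        exact h1⟩) with h1 | h1
    · have h2 : π' f ∈ W' := by
        refine ⟨hRπ' f, fun w => ?_⟩
        have h3 : φ (W E w *ᵥ π f) = φ' (W E' w *ᵥ π' f) := by
          rw [hπ, hπ', Finsupp.sum, Finsupp.sum, mulVec_sum, mulVec_sum, map_sum, map_sum]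
          refine Finset.sum_congr rfl fun z _ => ?_
          rw [mulVec_smul, mulVec_smul, map_smul, map_smul, mulVec_mulVec, mulVec_mulVec,
            ← W_append, ← W_append, universal h h' k k' _ (w ++ z) le_rfl]
        rw [← h3, hf, mulVec_zero, map_zero]
      rwa [h1, Submodule.mem_bot] at h2
    · exfalso
      have h2 := (h1 v' k'.Rv).2 []
      rw [W_nil, one_mulVec, k'.one] at h2
      exact one_ne_zero h2
  obtain ⟨s, hs⟩ := LinearMap.exists_rightInverse_of_surjective π.rangeRestrict
    (LinearMap.range_rangeRestrict π)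
  have hs' : ∀ u : LinearMap.range π, π (s u) = u := fun u => by
    have h1 := LinearMap.congr_fun hs u
    have h2 := congrArg Subtype.val h1
    exact h2
  let T : (B → ℂ) →ₗ[ℂ] (C → ℂ) := π' ∘ₗ s ∘ₗ
    (LinearMap.codRestrict (LinearMap.range π) (mulVecLin R) fun u =>
      hall _ (by rw [mulVecLin_apply, mulVec_mulVec, h.RR]))
  have hT : ∀ f, T (π f) = π' f := by
    intro f
    change π' (s _) = π' f
    rw [← sub_eq_zero, ← map_sub]
    apply hker
    rw [map_sub, hs', sub_eq_zero]
    exact hRπ f
  have hTR : ∀ u, T (R *ᵥ u) = T u := by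
    intro u
    change π' (s _) = π' (s _)
    congr 2
    apply Subtype.ext
    change R *ᵥ (R *ᵥ u) = R *ᵥ u
    rw [mulVec_mulVec, h.RR]
  have hTE : ∀ i j u, T (E i j *ᵥ u) = E' i j *ᵥ T u := by
    intro i j u
    obtain ⟨f, hf⟩ := hall (R *ᵥ u) (by rw [mulVec_mulVec, h.RR])
    rw [← hTR u, ← hf, hT, ← hc' (i, j) f, ← hT, hc, hf]
    change _ = T (E i j *ᵥ (R *ᵥ u))
    rw [mulVec_mulVec, h.r]
  refine ⟨LinearMap.toMatrix' T, ?_, fun i j => ?_, ?_, ?_⟩
  · refine Matrix.toLin'.injective (LinearMap.ext fun u => ?_)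
    rw [Matrix.toLin'_mul, LinearMap.comp_apply, Matrix.toLin'_toMatrix', Matrix.toLin'_apply,
      hTR]
  · refine Matrix.toLin'.injective (LinearMap.ext fun u => ?_)
    rw [Matrix.toLin'_mul, Matrix.toLin'_mul, LinearMap.comp_apply, LinearMap.comp_apply,
      Matrix.toLin'_toMatrix', Matrix.toLin'_apply, Matrix.toLin'_apply, hTE]
  · rw [← Matrix.toLin'_apply, Matrix.toLin'_toMatrix']
    have h1 := hT (Finsupp.single [] 1)
    rwa [hπ1, hπ1', W_nil, W_nil, one_mulVec, one_mulVec] at h1
  · refine Matrix.toLin'.injective (LinearMap.ext fun u => ?_)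
    rw [Matrix.toLin'_mul, LinearMap.comp_apply, Matrix.toLin'_toMatrix', Matrix.toLin'_apply]
    exact hRπ' _

include h h' in
/-- **Two irreducible representations with the same weight are isomorphic.** -/
theorem exists_iso (k : Wt E R S v φ) (k' : Wt E' R' S v' φ') :
    ∃ (T : Matrix C B ℂ) (T' : Matrix B C ℂ), (∀ i j, T * E i j = E' i j * T) ∧
      (∀ i j, T' * E' i j = E i j * T') ∧ T' * T = R ∧ T * T' = R' ∧ T * R = T ∧ R' * T = T ∧
        T' * R' = T' ∧ R * T' = T' := by
  obtain ⟨T, h1, h2, h3, h4⟩ := exists_hom h h' k k'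
  obtain ⟨T', h1', h2', h3', h4'⟩ := exists_hom h' h k' k
  refine ⟨T, T', h2, h2', ?_, ?_, h1, h4, h1', h4'⟩
  · obtain ⟨κ, hκ⟩ := h.schur (c := T' * T) (by rw [← Matrix.mul_assoc, h4']) (by rw [Matrix.mul_assoc, h1])
      (fun i j => by rw [Matrix.mul_assoc, h2, ← Matrix.mul_assoc, h2', Matrix.mul_assoc])
    have h5 : (T' * T) *ᵥ v = v := by rw [← mulVec_mulVec, h3, h3']
    rw [hκ, smul_mulVec, k.Rv] at h5
    have h6 := congrArg φ h5
    rw [map_smul, k.one, smul_eq_mul, mul_one] at h6
    rw [hκ, h6, one_smul]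
  · obtain ⟨κ, hκ⟩ := h'.schur (c := T * T') (by rw [← Matrix.mul_assoc, h4]) (by rw [Matrix.mul_assoc, h1'])
      (fun i j => by rw [Matrix.mul_assoc, h2', ← Matrix.mul_assoc, h2, Matrix.mul_assoc])
    have h5 : (T * T') *ᵥ v' = v' := by rw [← mulVec_mulVec, h3', h3]
    rw [hκ, smul_mulVec, k'.Rv] at h5
    have h6 := congrArg φ' h5
    rw [map_smul, k'.one, smul_eq_mul, mul_one] at h6
    rw [hκ, h6, one_smul]

end

end Pool.Agent.K9h17.F
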