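import Mathlib
import Pool.Agent.K9h17.F.Word

/-!
# Extremal weights and the dual representation
-/

set_option linter.unusedSectionVars false

namespace Pool.Agent.K9h17.F

open Matrix Module
open Pool.Agent.K9h17.L

noncomputable section

variable {B : Type*} [Fintype B] [DecidableEq B] {d : ℕ}
  {E : Fin d → Fin d → Matrix B B ℂ} {R : Matrix B B ℂ} (h : GLd E R)

/-- `S` is a weight. -/
def IsWt (E : Fin d → Fin d → Matrix B B ℂ) (R : Matrix B B ℂ) (S : Finset (Fin d))
    (v : B → ℂ) : Prop :=
  v ≠ 0 ∧ R *ᵥ v = v ∧ ∀ i, E i i *ᵥ v = if i ∈ S then v else 0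

include h

theorem com' (i j : Fin d) : E i i * E j j = E j j * E i i := by
  by_cases hij : j = i
  · rw [hij]
  · exact h.com hij hij

/-- There is a weight. -/
theorem exists_isWt (h0 : R ≠ 0) : ∃ S v, IsWt E R S v := by
  classical
  have key : ∀ s : Finset (Fin d), ∃ (S : Finset (Fin d)) (v : B → ℂ), v ≠ 0 ∧ R *ᵥ v = v ∧
      ∀ i ∈ s, E i i *ᵥ v = if i ∈ S then v else 0 := by
    intro s
    induction s using Finset.induction_on with
    | empty =>
      obtain ⟨v, hv, hv0⟩ : ∃ v : B → ℂ, R *ᵥ v = v ∧ v ≠ 0 := by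
        by_contra hcon
        push Not at hcon
        apply h0
        refine mat_ext fun w => ?_
        rw [zero_mulVec]
        exact hcon _ (by rw [mulVec_mulVec, h.RR])
      exact ⟨∅, v, hv0, hv, fun i hi => absurd hi (Finset.notMem_empty i)⟩
    | insert k s hk ih =>
      obtain ⟨S, v, hv0, hRv, hv⟩ := ih
      by_cases h1 : E k k *ᵥ v = 0
      · refine ⟨S.erase k, v, hv0, hRv, fun i hi => ?_⟩
        rcases Finset.mem_insert.1 hi with rfl | hi
        · rw [if_neg (Finset.notMem_erase _ _), h1]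
        · have h2 : i ≠ k := fun h3 => hk (h3 ▸ hi)
          rw [hv i hi]
          simp [Finset.mem_erase, h2]
      · refine ⟨insert k S, E k k *ᵥ v, h1, by rw [mulVec_mulVec, h.l], fun i hi => ?_⟩
        rcases Finset.mem_insert.1 hi with rfl | hi
        · rw [if_pos (Finset.mem_insert_self _ _), mulVec_mulVec, h.id]
        · have h2 : i ≠ k := fun h3 => hk (h3 ▸ hi)
          rw [mulVec_mulVec, com' h i k, ← mulVec_mulVec, hv i hi]
          by_cases h3 : i ∈ S
          · rw [if_pos h3, if_pos (Finset.mem_insert_of_mem h3)]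
          · rw [if_neg h3, if_neg, mulVec_zero]
            intro h4
            rcases Finset.mem_insert.1 h4 with h5 | h5
            · exact h2 h5
            · exact h3 h5
  obtain ⟨S, v, h1, h2, h3⟩ := key Finset.univ
  exact ⟨S, v, h1, h2, fun i => h3 i (Finset.mem_univ i)⟩

/-- The functional. -/
theorem exists_fun {S : Finset (Fin d)} {v : B → ℂ} (hv : IsWt E R S v) :
    ∃ φ : (B → ℂ) →ₗ[ℂ] ℂ, Wt E R S v φ := by
  classical
  obtain ⟨hv0, hRv, hv⟩ := hv
  have key : ∀ s : Finset (Fin d), ∃ φ : (B → ℂ) →ₗ[ℂ] ℂ, φ v = 1 ∧ (∀ u, φ (R *ᵥ u) = φ u) ∧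
      ∀ i ∈ s, ∀ u, φ (E i i *ᵥ u) = if i ∈ S then φ u else 0 := by
    intro s
    induction s using Finset.induction_on with
    | empty =>
      obtain ⟨f, hf, -⟩ := Submodule.exists_le_ker_of_notMem (p := (⊥ : Submodule ℂ (B → ℂ)))
        (v := v) (fun h1 => hv0 ((Submodule.mem_bot ℂ).1 h1))
      refine ⟨(f v)⁻¹ • f ∘ₗ mulVecLin R, ?_, fun u => ?_,
        fun i hi => absurd hi (Finset.notMem_empty i)⟩
      · rw [LinearMap.smul_apply, LinearMap.comp_apply, mulVecLin_apply, hRv, smul_eq_mul,
          inv_mul_cancel₀ hf]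
      · rw [LinearMap.smul_apply, LinearMap.smul_apply, LinearMap.comp_apply,
          LinearMap.comp_apply, mulVecLin_apply, mulVecLin_apply, mulVec_mulVec, h.RR]
    | insert k s hk ih =>
      obtain ⟨φ, h1, h2, h3⟩ := ih
      by_cases hkS : k ∈ S
      · refine ⟨φ ∘ₗ mulVecLin (E k k), ?_, fun u => ?_, fun i hi u => ?_⟩
        · rw [LinearMap.comp_apply, mulVecLin_apply, hv, if_pos hkS, h1]
        · rw [LinearMap.comp_apply, LinearMap.comp_apply, mulVecLin_apply, mulVecLin_apply,
            mulVec_mulVec, h.r]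
        · rw [LinearMap.comp_apply, LinearMap.comp_apply, mulVecLin_apply, mulVecLin_apply,
            mulVec_mulVec]
          rcases Finset.mem_insert.1 hi with rfl | hi
          · rw [if_pos hkS, h.id]
          · rw [com' h k i, ← mulVec_mulVec, h3 i hi]
      · refine ⟨φ ∘ₗ mulVecLin (R - E k k), ?_, fun u => ?_, fun i hi u => ?_⟩
        · rw [LinearMap.comp_apply, mulVecLin_apply, sub_mulVec, hv, if_neg hkS, sub_zero, hRv,
            h1]
        · rw [LinearMap.comp_apply, LinearMap.comp_apply, mulVecLin_apply, mulVecLin_apply,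
            mulVec_mulVec, sub_mul, h.r, h.RR]
        · rw [LinearMap.comp_apply, LinearMap.comp_apply, mulVecLin_apply, mulVecLin_apply,
            mulVec_mulVec]
          rcases Finset.mem_insert.1 hi with rfl | hi
          · rw [if_neg hkS, sub_mul, h.l, h.id, sub_self, zero_mulVec, map_zero]
          · rw [sub_mul, h.l, com' h k i]
            have e1 : E i i - E i i * E k k = E i i * (R - E k k) := by rw [mul_sub, h.r]
            rw [e1, ← mulVec_mulVec, h3 i hi]
  obtain ⟨φ, h1, h2, h3⟩ := key Finset.univ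
  exact ⟨φ, hRv, h2, hv, fun i u => h3 i (Finset.mem_univ i) u, h1⟩

/-- Replace an element of the weight by another one. -/
theorem move {S : Finset (Fin d)} {v : B → ℂ} (hv : IsWt E R S v) {i j : Fin d} (hi : i ∉ S)
    (hj : j ∈ S) : IsWt E R (insert i (S.erase j)) (E i j *ᵥ v) := by
  classical
  obtain ⟨hv0, hRv, hv⟩ := hv
  have hij : i ≠ j := fun h1 => hi (h1 ▸ hj)
  refine ⟨?_, by rw [mulVec_mulVec, h.l], fun k => ?_⟩
  · intro h1
    have h2 := congrArg (fun z => z *ᵥ v) (h.br j i i j)
    beta_reduce at h2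
    rw [if_pos rfl, if_pos rfl, sub_mulVec, sub_mulVec, ← mulVec_mulVec, ← mulVec_mulVec, h1,
      kill h hv hij.symm (Or.inr hi), mulVec_zero, mulVec_zero, sub_zero, hv, hv, if_pos hj,
      if_neg hi, sub_zero] at h2
    exact hv0 h2.symm
  · rw [mulVec_mulVec]
    by_cases hki : k = i
    · subst hki
      rw [(h.up hij.symm).1, if_pos (Finset.mem_insert_self _ _)]
    by_cases hkj : k = j
    · subst hkj
      rw [(h.dn hij).2, zero_mulVec, if_neg]
      intro h1
      rcases Finset.mem_insert.1 h1 with h2 | h2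
      · exact hij h2.symm
      · exact Finset.notMem_erase _ _ h2
    · rw [h.com (Ne.symm hki) (Ne.symm hkj), ← mulVec_mulVec, hv]
      by_cases h1 : k ∈ S
      · rw [if_pos h1, if_pos (Finset.mem_insert_of_mem (Finset.mem_erase.2 ⟨hkj, h1⟩))]
      · rw [if_neg h1, if_neg, mulVec_zero]
        intro h2
        rcases Finset.mem_insert.1 h2 with h3 | h3
        · exact hki h3
        · exact h1 (Finset.mem_of_mem_erase h3)

/-- The number of elements of a weight. -/
theorem card_wt {S : Finset (Fin d)} {v : B → ℂ} (hv : IsWt E R S v) {t : ℕ}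
    (ht : ∑ i, E i i = (t : ℂ) • R) : S.card = t := by
  obtain ⟨hv0, hRv, hv⟩ := hv
  have h1 := congrArg (fun z => z *ᵥ v) ht
  beta_reduce at h1
  rw [Matrix.sum_mulVec, Finset.sum_congr rfl fun i _ => hv i, smul_mulVec, hRv,
    Finset.sum_ite_mem, Finset.univ_inter, Finset.sum_const, ← Nat.cast_smul_eq_nsmul ℂ,
    ← sub_eq_zero, ← sub_smul] at h1
  exact_mod_cast sub_eq_zero.1 ((smul_eq_zero.1 h1).resolve_right hv0)

omit h in
/-- Initial segments. -/
theorem init_seg {S : Finset (Fin d)} (hS : ∀ i ∉ S, ∀ j ∈ S, j < i) :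
    S = Finset.univ.filter fun i => i.val < S.card := by
  classical
  refine Finset.eq_of_subset_of_card_le (fun i hi => ?_) ?_
  · rw [Finset.mem_filter]
    refine ⟨Finset.mem_univ _, ?_⟩
    have h1 : Finset.Iic i ⊆ S := by
      intro j hj
      by_contra h2
      exact absurd (hS j h2 i hi) (not_lt.2 (Finset.mem_Iic.1 hj))
    have h2 := Finset.card_le_card h1
    rw [Fin.card_Iic] at h2
    omega
  · have h1 : (Finset.univ.filter fun i : Fin d => i.val < S.card).card ≤
        (Finset.range S.card).card :=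
      Finset.card_le_card_of_injOn (fun i => i.val)
        (fun i hi => Finset.mem_range.2 (Finset.mem_filter.1 hi).2)
        (fun i _ j _ hij => Fin.ext hij)
    rwa [Finset.card_range] at h1

/-- The lowest weight. -/
theorem exists_low (h0 : R ≠ 0) : ∃ S v, IsWt E R S v ∧ ∀ i ∉ S, ∀ j ∈ S, j < i := by
  classical
  obtain ⟨S0, v0, h00⟩ := exists_isWt h h0
  obtain ⟨S, hS, hmin⟩ := Finset.exists_min_image
    (Finset.univ.filter fun S : Finset (Fin d) => ∃ v, IsWt E R S v) (fun S => ∑ i ∈ S, i.val)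
    ⟨S0, Finset.mem_filter.2 ⟨Finset.mem_univ _, v0, h00⟩⟩
  obtain ⟨v, hv⟩ := (Finset.mem_filter.1 hS).2
  refine ⟨S, v, hv, fun i hi j hj => ?_⟩
  by_contra hlt
  have hij : i ≠ j := fun h1 => hi (h1 ▸ hj)
  have h1 : i < j := lt_of_le_of_ne (not_lt.1 hlt) hij
  have h2 := hmin _ (Finset.mem_filter.2 ⟨Finset.mem_univ _, _, move h hv hi hj⟩)
  rw [Finset.sum_insert (fun h3 => hi (Finset.mem_of_mem_erase h3))] at h2
  have h3 := Finset.add_sum_erase S (fun i => i.val) hj
  have h4 : i.val < j.val := h1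
  beta_reduce at h2 h3
  omega

/-- The highest weight. -/
theorem exists_high (h0 : R ≠ 0) : ∃ S v, IsWt E R S v ∧ ∀ i ∉ S, ∀ j ∈ S, i < j := by
  classical
  obtain ⟨S0, v0, h00⟩ := exists_isWt h h0
  obtain ⟨S, hS, hmax⟩ := Finset.exists_max_image
    (Finset.univ.filter fun S : Finset (Fin d) => ∃ v, IsWt E R S v) (fun S => ∑ i ∈ S, i.val)
    ⟨S0, Finset.mem_filter.2 ⟨Finset.mem_univ _, v0, h00⟩⟩
  obtain ⟨v, hv⟩ := (Finset.mem_filter.1 hS).2
  refine ⟨S, v, hv, fun i hi j hj => ?_⟩
  by_contra hlt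
  have hij : i ≠ j := fun h1 => hi (h1 ▸ hj)
  have h1 : j < i := lt_of_le_of_ne (not_lt.1 hlt) hij.symm
  have h2 := hmax _ (Finset.mem_filter.2 ⟨Finset.mem_univ _, _, move h hv hi hj⟩)
  rw [Finset.sum_insert (fun h3 => hi (Finset.mem_of_mem_erase h3))] at h2
  have h3 := Finset.add_sum_erase S (fun i => i.val) hj
  have h4 : j.val < i.val := h1
  beta_reduce at h2 h3
  omega

/-- The dual representation. -/
theorem dual : GLd (fun i j => (if i = j then Rᵀ else 0) - (E i j)ᵀ) Rᵀ where
  RR := by rw [← transpose_mul, h.RR]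
  l i j := by
    rw [mul_sub, ← transpose_mul, h.r, mul_ite, mul_zero, ← transpose_mul, h.RR]
  r i j := by
    rw [sub_mul, ← transpose_mul, h.l, ite_mul, zero_mul, ← transpose_mul, h.RR]
  id i := by
    rw [if_pos rfl, ← transpose_sub, ← transpose_mul]
    congr 1
    rw [sub_mul, mul_sub, mul_sub, h.RR, h.id, h.l, h.r]
    abel
  br i j k l := by
    have e1 : ∀ i j k l, ((if i = j then Rᵀ else 0) - (E i j)ᵀ) *
        ((if k = l then Rᵀ else 0) - (E k l)ᵀ) -
        ((if k = l then Rᵀ else 0) - (E k l)ᵀ) * ((if i = j then Rᵀ else 0) - (E i j)ᵀ) =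
        -(E i j * E k l - E k l * E i j)ᵀ := by
      intro i j k l
      rw [transpose_sub, transpose_mul, transpose_mul]
      have e2 : ∀ i j, Rᵀ * (E i j)ᵀ = (E i j)ᵀ := fun i j => by rw [← transpose_mul, h.r]
      have e3 : ∀ i j, (E i j)ᵀ * Rᵀ = (E i j)ᵀ := fun i j => by rw [← transpose_mul, h.l]
      split_ifs
      · simp only [sub_mul, mul_sub, e2, e3]
        abel
      · simp only [sub_mul, mul_sub, e2, e3, zero_sub, mul_neg, neg_mul]
        abel
      · simp only [sub_mul, mul_sub, e2, e3, zero_sub, mul_neg, neg_mul]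
        abel
      · simp only [zero_sub, mul_neg, neg_mul]
        abel
    rw [e1, h.br, transpose_sub]
    by_cases c1 : j = k
    · subst c1
      by_cases c2 : l = i
      · subst c2
        simp
      · simp [c2, Ne.symm c2]
    · by_cases c2 : l = i
      · subst c2
        simp [c1, Ne.symm c1]
      · simp [c1, c2]
  irr := by
    intro U hU hst
    have hst' : ∀ i j, ∀ u ∈ U, (E i j)ᵀ *ᵥ u ∈ U := by
      intro i j u hu
      have h1 := hst i j u hu
      rw [sub_mulVec] at h1
      have h2 : (if i = j then Rᵀ else 0) *ᵥ u ∈ U := by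
        split_ifs
        · rw [hU u hu]
          exact hu
        · rw [zero_mulVec]
          exact U.zero_mem
      have h3 := U.sub_mem h2 h1
      rwa [sub_sub_cancel] at h3
    let U' : Submodule ℂ (B → ℂ) :=
      { carrier := {x | R *ᵥ x = x ∧ ∀ u ∈ U, u ⬝ᵥ x = 0}
        zero_mem' := ⟨mulVec_zero _, fun u _ => dotProduct_zero u⟩
        add_mem' := fun {x y} hx hy => ⟨by rw [mulVec_add, hx.1, hy.1], fun u hu => by
          rw [dotProduct_add, hx.2 u hu, hy.2 u hu, add_zero]⟩
        smul_mem' := fun c x hx => ⟨by rw [mulVec_smul, hx.1], fun u hu => by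
          rw [dotProduct_smul, hx.2 u hu, smul_zero]⟩ }
    rcases h.irr U' (fun u hu => hu.1) (fun i j x hx => ⟨by rw [mulVec_mulVec, h.l], fun u hu => by
        rw [dotProduct_mulVec, ← mulVec_transpose]
        exact hx.2 _ (hst' i j u hu)⟩) with h1 | h1
    · right
      intro u hu
      by_contra h2
      obtain ⟨f, hf1, hf2⟩ := Submodule.exists_le_ker_of_notMem h2
      -- the vector
      obtain ⟨x, hx⟩ : ∃ x : B → ℂ, ∀ w, f w = w ⬝ᵥ x := by
        refine ⟨fun i => f (Pi.single i 1), fun w => ?_⟩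
        have h3 : w = ∑ i, w i • (Pi.single i (1 : ℂ) : B → ℂ) := by
          funext j
          rw [Finset.sum_apply, Finset.sum_eq_single j]
          · simp
          · intro i _ hij
            simp [hij.symm]
          · intro h4
            exact absurd (Finset.mem_univ j) h4
        nth_rewrite 1 [h3]
        rw [map_sum]
        refine Finset.sum_congr rfl fun i _ => ?_
        rw [map_smul, smul_eq_mul]
      have h3 : R *ᵥ x ∈ U' := by
        refine ⟨by rw [mulVec_mulVec, h.RR], fun w hw => ?_⟩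
        rw [dotProduct_mulVec, ← mulVec_transpose, hU w hw, ← hx]
        exact hf2 hw
      rw [h1, Submodule.mem_bot] at h3
      apply hf1
      rw [hx, ← hu, mulVec_transpose, ← dotProduct_mulVec, h3, dotProduct_zero]
    · left
      rw [Submodule.eq_bot_iff]
      intro u hu
      funext i
      have h2 := (h1 (R *ᵥ Pi.single i 1) (by rw [mulVec_mulVec, h.RR])).2 u hu
      rw [dotProduct_mulVec, ← mulVec_transpose, hU u hu, dotProduct_single_one] at h2
      exact h2

end

end Pool.Agent.K9h17.F
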