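import Mathlib
import Pool.Agent.K9h17.F.Ext
import Pool.Agent.K9h17.L.Binom

/-!
# The invariant form on the middle exterior power
-/

set_option linter.unusedSectionVars false

namespace Pool.Agent.K9h17.F

open Matrix Module
open Pool.Agent.Y4.G (trF trF_apply exists_dual)
open Pool.Agent.Y4.G.Lie (pos mem_pos)
open Pool.Agent.N183.JP
open Pool.Agent.K9h17.L

noncomputable section

variable {B : Type*} [Fintype B] [DecidableEq B] {d : ℕ}

/-- **The dual representation is isomorphic** to the representation in the middle degree. -/
theorem exists_self_dual {E : Fin d → Fin d → Matrix B B ℂ} {R : Matrix B B ℂ} (h : GLd E R)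
    (h0 : R ≠ 0) {t : ℕ} (ht : ∑ i, E i i = (t : ℂ) • R) (hd : d = 2 * t) :
    ∃ N N' : Matrix B B ℂ,
      (∀ i j, N * E i j = ((if i = j then Rᵀ else 0) - (E i j)ᵀ) * N) ∧
      (∀ i j, N' * ((if i = j then Rᵀ else 0) - (E i j)ᵀ) = E i j * N') ∧
      N' * N = R ∧ N * N' = Rᵀ ∧ N * R = N ∧ Rᵀ * N = N ∧ N' * Rᵀ = N' ∧ R * N' = N' := by
  classical
  obtain ⟨S, v, hv, hS⟩ := exists_low h h0
  obtain ⟨S1, v1, hv1, hS1⟩ := exists_high h h0
  obtain ⟨φ, k⟩ := exists_fun h hv
  obtain ⟨φ1, k1⟩ := exists_fun h hv1
  have hc := card_wt h hv ht
  have hc1 := card_wt h hv1 ht
  have hSS : S1ᶜ = S := by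
    have e1 := init_seg hS
    have e2 := init_seg (S := S1ᶜ) fun i hi j hj => by
      rw [Finset.mem_compl, not_not] at hi
      rw [Finset.mem_compl] at hj
      exact hS1 j hj i hi
    have e3 : S1ᶜ.card = t := by
      rw [Finset.card_compl, Fintype.card_fin, hc1, hd]
      omega
    rw [e2, e1, hc, e3]
  -- the functional as a vector
  obtain ⟨c, hcv⟩ : ∃ c : B → ℂ, ∀ w, φ1 w = c ⬝ᵥ w := by
    refine ⟨fun i => φ1 (Pi.single i 1), fun w => ?_⟩
    have h3 : w = ∑ i, w i • (Pi.single i (1 : ℂ) : B → ℂ) := by
      funext j
      rw [Finset.sum_apply, Finset.sum_eq_single j]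
      · simp
      · intro i _ hij
        simp [hij.symm]
      · intro h4
        exact absurd (Finset.mem_univ j) h4
    nth_rewrite 1 [h3]
    rw [map_sum]
    refine Finset.sum_congr rfl fun i _ => ?_
    rw [map_smul, smul_eq_mul, mul_comm]
  have hext : ∀ x y : B → ℂ, (∀ w, x ⬝ᵥ w = y ⬝ᵥ w) → x = y := by
    intro x y hxy
    funext i
    have h1 := hxy (Pi.single i 1)
    rwa [dotProduct_single_one, dotProduct_single_one] at h1
  let ev : (B → ℂ) →ₗ[ℂ] ℂ :=
    { toFun := fun u => u ⬝ᵥ v1
      map_add' := fun x y => add_dotProduct x y v1
      map_smul' := fun r x => by rw [smul_dotProduct, RingHom.id_apply] }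
  have hev : ∀ u, ev u = u ⬝ᵥ v1 := fun u => rfl
  have hRc : Rᵀ *ᵥ c = c := by
    refine hext _ _ fun w => ?_
    rw [mulVec_transpose, ← dotProduct_mulVec, ← hcv, ← hcv, k1.Rφ]
  have hEc : ∀ i, (E i i)ᵀ *ᵥ c = if i ∈ S1 then c else 0 := by
    intro i
    refine hext _ _ fun w => ?_
    rw [mulVec_transpose, ← dotProduct_mulVec, ← hcv, k1.hφ]
    split_ifs
    · rw [hcv]
    · rw [zero_dotProduct]
  have k' : Wt (fun i j => (if i = j then Rᵀ else 0) - (E i j)ᵀ) Rᵀ S c ev :=
    { Rv := hRc
      Rφ := fun u => by
        rw [hev, hev, mulVec_transpose, ← dotProduct_mulVec, k1.Rv]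
      hv := fun i => by
        rw [if_pos rfl, sub_mulVec, hRc, hEc, ← hSS]
        by_cases hi : i ∈ S1
        · rw [if_pos hi, sub_self, if_neg (by rw [Finset.mem_compl, not_not]; exact hi)]
        · rw [if_neg hi, sub_zero, if_pos (Finset.mem_compl.2 hi)]
      hφ := fun i u => by
        rw [if_pos rfl, sub_mulVec, map_sub, hev, hev, mulVec_transpose, mulVec_transpose,
          ← dotProduct_mulVec, ← dotProduct_mulVec, k1.Rv, k1.hv, ← hSS, hev]
        by_cases hi : i ∈ S1
        · rw [if_pos hi, sub_self, if_neg (by rw [Finset.mem_compl, not_not]; exact hi)]
        · rw [if_neg hi, dotProduct_zero, sub_zero, if_pos (Finset.mem_compl.2 hi)]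
      one := by rw [hev, ← hcv, k1.one] }
  obtain ⟨T, T', h1, h2, h3, h4, h5, h6, h7, h8⟩ := exists_iso h (dual h) k k'
  exact ⟨T, T', h1, h2, h3, h4, h5, h6, h7, h8⟩

variable {G : Submodule ℂ (Matrix B B ℂ)} {P Q : Matrix B B ℂ} {a b : ℕ}

/-- All matrix units. -/
def fullE {n : ℕ} (Q : Matrix B B ℂ) (x y : Fin n → Matrix B B ℂ) :
    Fin (n + 1) → Fin (n + 1) → Matrix B B ℂ := fun i j =>
  Fin.cases (Fin.cases Q (fun j => y j) j)
    (fun i => Fin.cases (x i) (fun j => x i * y j + ((if i = j then Q else 0) - y j * x i)) j) i

section full

variable {n : ℕ} {x y : Fin n → Matrix B B ℂ}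

theorem full_zz : fullE Q x y 0 0 = Q := rfl

theorem full_zs (j : Fin n) : fullE Q x y 0 j.succ = y j := rfl

theorem full_sz (i : Fin n) : fullE Q x y i.succ 0 = x i := rfl

theorem full_ss (i j : Fin n) : fullE Q x y i.succ j.succ =
    x i * y j + ((if i = j then Q else 0) - y j * x i) := rfl

/-- **The representation of the full linear Lie algebra.** -/
theorem full_gl (H : LieP G P Q a b) (hirr : IrrXY G P Q) (D : Dual2 G P Q x y) :
    GLd (fullE Q x y) (P + Q) := by
  have Px : ∀ i, P * x i = x i := fun i => (D.hx i).2.1
  have xQ : ∀ i, x i * Q = x i := fun i => (D.hx i).2.2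
  have Qy : ∀ i, Q * y i = y i := fun i => (D.hy i).2.1
  have yP : ∀ i, y i * P = y i := fun i => (D.hy i).2.2
  have Qx : ∀ i, Q * x i = 0 := fun i => by rw [← Px, ← mul_assoc, H.QP, zero_mul]
  have xP : ∀ i, x i * P = 0 := fun i => by rw [← xQ, mul_assoc, H.QP, mul_zero]
  have Py : ∀ i, P * y i = 0 := fun i => by rw [← Qy, ← mul_assoc, H.PQ, zero_mul]
  have yQ : ∀ i, y i * Q = 0 := fun i => by rw [← yP, mul_assoc, H.PQ, mul_zero]
  have xx : ∀ i j, x i * x j = 0 := fun i j => pos_mul_pos H (D.hx i) (D.hx j)
  have yy : ∀ i j, y i * y j = 0 := fun i j => pos_mul_pos H.symm (D.hy i) (D.hy j)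
  have gP := D.gl H hirr
  have gQ := D.symm.gl H.symm hirr.symm
  have hl : ∀ i j, (P + Q) * fullE Q x y i j = fullE Q x y i j := by
    intro i j
    induction i using Fin.cases with
    | zero =>
      induction j using Fin.cases with
      | zero => rw [full_zz, add_mul, H.PQ, H.QQ, zero_add]
      | succ j => rw [full_zs, add_mul, Py, Qy, zero_add]
    | succ i =>
      induction j using Fin.cases with
      | zero => rw [full_sz, add_mul, Px, Qx, add_zero]
      | succ j =>
        rw [full_ss]
        simp only [add_mul, mul_add, mul_sub, ← mul_assoc, Px, Qx, Py, Qy, zero_mul, mul_ite,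
          H.PQ, H.QQ, mul_zero, ite_self, sub_zero, add_zero, zero_add]
  have hr : ∀ i j, fullE Q x y i j * (P + Q) = fullE Q x y i j := by
    intro i j
    induction i using Fin.cases with
    | zero =>
      induction j using Fin.cases with
      | zero => rw [full_zz, mul_add, H.QP, H.QQ, zero_add]
      | succ j => rw [full_zs, mul_add, yP, yQ, add_zero]
    | succ i =>
      induction j using Fin.cases with
      | zero => rw [full_sz, mul_add, xP, xQ, zero_add]
      | succ j =>
        rw [full_ss]
        simp only [add_mul, mul_add, sub_mul, mul_assoc, xP, xQ, yP, yQ, mul_zero, ite_mul,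
          H.QP, H.QQ, zero_mul, ite_self, sub_zero, add_zero, zero_add]
  exact
  { RR := by rw [add_mul, mul_add, mul_add, H.PP, H.PQ, H.QP, H.QQ, add_zero, zero_add]
    l := hl
    r := hr
    id := fun i => by
      induction i using Fin.cases with
      | zero => rw [full_zz, H.QQ]
      | succ i =>
        rw [full_ss, if_pos rfl]
        have e1 := gP.id i
        have e2 := gQ.id i
        have e3 : (x i * y i + (Q - y i * x i)) * (x i * y i + (Q - y i * x i)) =
            x i * y i * (x i * y i) + x i * (y i * Q) - x i * (y i * y i) * x i +
              Q * x i * y i - y i * (x i * x i) * y i + Q * Q - Q * y i * x i - y i * (x i * Q) +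
                y i * x i * (y i * x i) := by noncomm_ring
        rw [e3, e1, e2, yQ, yy, Qx, xx, H.QQ, Qy, xQ]
        simp only [mul_zero, zero_mul, add_zero, sub_zero]
        abel
    br := fun i j k l => by
      have hEQ : ∀ i j : Fin n, Q * (x i * y j + ((if i = j then Q else 0) - y j * x i)) =
          (if i = j then Q else 0) - y j * x i := fun i j => by
        rw [mul_add, mul_sub, ← mul_assoc, ← mul_assoc, Qx, Qy, zero_mul, zero_add, mul_ite,
          mul_zero, H.QQ]
      have hEQ' : ∀ i j : Fin n, (x i * y j + ((if i = j then Q else 0) - y j * x i)) * Q =
          (if i = j then Q else 0) - y j * x i := fun i j => by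
        rw [add_mul, sub_mul, mul_assoc, mul_assoc, yQ, xQ, mul_zero, zero_add, ite_mul,
          zero_mul, H.QQ]
      have hyE : ∀ j k l : Fin n, y j * (x k * y l + ((if k = l then Q else 0) - y l * x k)) -
          (x k * y l + ((if k = l then Q else 0) - y l * x k)) * y j =
          if j = k then y l else 0 := by
        intro j k l
        have e1 := D.t' j k l
        have e2 : y j * (x k * y l + ((if k = l then Q else 0) - y l * x k)) -
            (x k * y l + ((if k = l then Q else 0) - y l * x k)) * y j =
            (y j * x k * y l + y l * x k * y j) + y j * (if k = l then Q else 0) -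
              (y j * y l) * x k - x k * (y l * y j) - (if k = l then Q else 0) * y j := by
          noncomm_ring
        rw [e2, e1, yy, yy, mul_ite, yQ, ite_mul, Qy]
        by_cases c1 : k = l
        · subst c1
          simp
        · simp [c1, Ne.symm c1]
      have hxE : ∀ i k l : Fin n, x i * (x k * y l + ((if k = l then Q else 0) - y l * x k)) -
          (x k * y l + ((if k = l then Q else 0) - y l * x k)) * x i =
          -(if l = i then x k else 0) := by
        intro i k l
        have e1 := D.t i l k
        have e2 : x i * (x k * y l + ((if k = l then Q else 0) - y l * x k)) -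
            (x k * y l + ((if k = l then Q else 0) - y l * x k)) * x i =
            (x i * x k) * y l + x i * (if k = l then Q else 0) -
              (x i * y l * x k + x k * y l * x i) + y l * (x k * x i) -
                (if k = l then Q else 0) * x i := by
          noncomm_ring
        rw [e2, e1, xx, xx, mul_ite, xQ, ite_mul, Qx]
        by_cases c1 : k = l
        · subst c1
          by_cases c2 : i = k
          · subst c2
            simp
          · simp [c2, Ne.symm c2]
        · by_cases c2 : i = l
          · subst c2
            simp [c1]
          · simp [c1, c2, Ne.symm c2]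
      induction i using Fin.cases with
      | zero =>
        induction j using Fin.cases with
        | zero =>
          induction k using Fin.cases with
          | zero =>
            induction l using Fin.cases with
            | zero => rw [full_zz, if_pos rfl, sub_self, sub_self]
            | succ l =>
              rw [full_zz, full_zs, if_pos rfl, if_neg (Fin.succ_ne_zero l), Qy, yQ]
          | succ k =>
            induction l using Fin.cases with
            | zero =>
              rw [full_zz, full_sz, if_pos rfl, if_neg (Fin.succ_ne_zero k).symm, Qx, xQ]
            | succ l =>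
              rw [full_zz, full_ss, if_neg (Fin.succ_ne_zero k).symm,
                if_neg (Fin.succ_ne_zero l), hEQ, hEQ', sub_self, sub_self]
        | succ j =>
          induction k using Fin.cases with
          | zero =>
            induction l using Fin.cases with
            | zero =>
              rw [full_zz, full_zs, if_pos rfl, if_neg (Fin.succ_ne_zero j), Qy, yQ]
            | succ l =>
              rw [full_zs, full_zs, if_neg (Fin.succ_ne_zero j), if_neg (Fin.succ_ne_zero l),
                yy, yy]
          | succ k =>
            induction l using Fin.cases with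
            | zero =>
              rw [full_zs, full_sz, if_pos rfl, full_ss, full_zz]
              simp only [Fin.succ_inj]
              by_cases c1 : j = k
              · subst c1
                simp only [if_true]
                abel
              · rw [if_neg c1, if_neg (Ne.symm c1)]
                abel
            | succ l =>
              rw [full_zs, full_ss, if_neg (Fin.succ_ne_zero l), full_zs, hyE]
              simp only [Fin.succ_inj, sub_zero]
      | succ i =>
        induction j using Fin.cases with
        | zero =>
          induction k using Fin.cases with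
          | zero =>
            induction l using Fin.cases with
            | zero =>
              rw [full_sz, full_zz, if_pos rfl, if_neg (Fin.succ_ne_zero i).symm, xQ, Qx]
            | succ l =>
              rw [full_sz, full_zs, if_pos rfl, full_ss, full_zz]
              simp only [Fin.succ_inj]
              by_cases c1 : i = l
              · subst c1
                simp only [if_true]
                abel
              · rw [if_neg c1, if_neg (Ne.symm c1)]
                abel
          | succ k =>
            induction l using Fin.cases with
            | zero =>
              rw [full_sz, full_sz, if_neg (Fin.succ_ne_zero k).symm,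
                if_neg (Fin.succ_ne_zero i).symm, xx, xx]
            | succ l =>
              rw [full_sz, full_ss, if_neg (Fin.succ_ne_zero k).symm, full_sz, hxE, zero_sub]
              simp only [Fin.succ_inj]
        | succ j =>
          induction k using Fin.cases with
          | zero =>
            induction l using Fin.cases with
            | zero =>
              rw [full_ss, full_zz, if_neg (Fin.succ_ne_zero j),
                if_neg (Fin.succ_ne_zero i).symm, hEQ, hEQ', sub_self, sub_self]
            | succ l =>
              rw [full_ss, full_zs, if_neg (Fin.succ_ne_zero j), full_zs, ← neg_sub, hyE,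
                zero_sub]
              simp only [Fin.succ_inj]
          | succ k =>
            induction l using Fin.cases with
            | zero =>
              rw [full_ss, full_sz, full_sz, if_neg (Fin.succ_ne_zero i).symm, ← neg_sub, hxE,
                neg_neg, sub_zero]
              simp only [Fin.succ_inj]
            | succ l =>
              have e1 := gP.br i j k l
              have e2 := gQ.br j i l k
              simp only [full_ss, Fin.succ_inj]
              have e3 : (x i * y j + ((if i = j then Q else 0) - y j * x i)) *
                  (x k * y l + ((if k = l then Q else 0) - y l * x k)) -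
                  (x k * y l + ((if k = l then Q else 0) - y l * x k)) *
                  (x i * y j + ((if i = j then Q else 0) - y j * x i)) =
                  (x i * y j * (x k * y l) - x k * y l * (x i * y j)) +
                    (y j * x i * (y l * x k) - y l * x k * (y j * x i)) := by
                have c1 : ∀ i j k l : Fin n, x i * y j * ((if k = l then Q else 0) - y l * x k) =
                    0 := fun i j k l => by
                  rw [mul_sub, mul_ite, mul_zero, mul_assoc, yQ, mul_zero, ite_self, zero_sub,
                    ← mul_assoc, mul_assoc (x i), yy, mul_zero, zero_mul, neg_zero]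
                have c2 : ∀ i j k l : Fin n, ((if i = j then Q else 0) - y j * x i) *
                    (x k * y l) = 0 := fun i j k l => by
                  rw [sub_mul, ite_mul, zero_mul, ← mul_assoc, Qx, zero_mul, ite_self, zero_sub,
                    ← mul_assoc, mul_assoc (y j), xx, mul_zero, zero_mul, neg_zero]
                have c3 : ∀ i j : Fin n, Q * (y j * x i) = y j * x i := fun i j => by
                  rw [← mul_assoc, Qy]
                have c4 : ∀ i j : Fin n, y j * x i * Q = y j * x i := fun i j => by
                  rw [mul_assoc, xQ]
                have c5 : ∀ i j k l : Fin n, ((if i = j then Q else 0) - y j * x i) *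
                    ((if k = l then Q else 0) - y l * x k) -
                    ((if k = l then Q else 0) - y l * x k) *
                      ((if i = j then Q else 0) - y j * x i) =
                    y j * x i * (y l * x k) - y l * x k * (y j * x i) := by
                  intro i j k l
                  split_ifs
                  · simp only [sub_mul, mul_sub, c3, c4]
                    abel
                  · simp only [sub_mul, mul_sub, c3, c4, zero_sub, mul_neg, neg_mul]
                    abel
                  · simp only [sub_mul, mul_sub, c3, c4, zero_sub, mul_neg, neg_mul]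
                    abel
                  · simp only [zero_sub, mul_neg, neg_mul]
                    abel
                rw [add_mul, mul_add, mul_add, c1, c2, add_mul, mul_add, mul_add, c1, c2, add_zero,
                  zero_add, add_zero, zero_add, ← c5 i j k l]
                abel
              rw [e3, e1, e2]
              by_cases c1 : j = k
              · subst c1
                by_cases c2 : l = i
                · subst c2
                  simp only [if_true]
                  abel
                · simp only [if_true, if_neg c2, if_neg (Ne.symm c2)]
                  abel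
              · by_cases c2 : l = i
                · subst c2
                  simp only [if_true, if_neg c1, if_neg (Ne.symm c1)]
                  abel
                · simp only [if_neg c1, if_neg c2, if_neg (Ne.symm c1), if_neg (Ne.symm c2)]
                  abel
    irr := fun U hU hst => by
      refine hirr U hU (fun z hz u hu => ?_) (fun z hz u hu => ?_)
      · obtain ⟨c, rfl⟩ := D.sx z hz
        rw [Matrix.sum_mulVec]
        refine U.sum_mem fun i _ => ?_
        rw [smul_mulVec]
        exact U.smul_mem _ (hst i.succ 0 u hu)
      · obtain ⟨c, rfl⟩ := D.sy z hz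
        rw [Matrix.sum_mulVec]
        refine U.sum_mem fun i _ => ?_
        rw [smul_mulVec]
        exact U.smul_mem _ (hst 0 i.succ u hu) }

end full

end

end Pool.Agent.K9h17.F
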