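import Mathlib
import Pool.Agent.K9h17.F.Form
import Pool.Agent.K9h17.B.Pair

/-!
# Elements of rank one for involutions with equal odd multiplicities, without exceptions

If there is no invariant bilinear form then no middle binomial coefficients have to be excluded.
-/

set_option linter.unusedSectionVars false

namespace Pool.Agent.K9h17.F

open Matrix Module
open Pool.Agent.Y4.G (trF trF_apply exists_dual trace_idemM)
open Pool.Agent.Y4.G.Lie (pos mem_pos)
open Pool.Agent.W548.Odd (rk)
open Pool.Agent.N183.JP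
open Pool.Agent.K9h17.L Pool.Agent.K9h17.B

noncomputable section

section mat

variable {B : Type} [Fintype B] [DecidableEq B]

variable {G : Submodule ℂ (Matrix B B ℂ)} {P Q : Matrix B B ℂ} {a b : ℕ}

/-- Dual bases. -/
theorem exists_dual2 (H : LieP G P Q a b) {e f p q : Matrix B B ℂ} (k : TrpP G P Q e f p q)
    (h0 : ∀ x ∈ pos G P Q, (P - p) * x * (Q - q) = 0) (hirr : IrrXY G P Q) :
    ∃ (n : ℕ) (x y : Fin n → Matrix B B ℂ) (s t : ℕ), Dual2 G P Q x y ∧ s + t = n + 1 ∧
      a = n.choose t ∧ b = n.choose s ∧ ∑ i, x i * y i = (t : ℂ) • P ∧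
        ∑ i, y i * x i = (s : ℂ) • Q := by
  have htp : trace p ≠ 0 := by
    intro h1
    have h2 : p = 0 := idem_zero k.pp h1
    apply k.ne
    rw [← k.pe, h2, zero_mul]
  obtain ⟨n, b', y, hy, hyb, hys⟩ := exists_dual (trF B) (pos G P Q) (pos G Q P)
    (fun x hx h => H.nondeg hx h) (fun x hx h => H.symm.nondeg hx fun y hy => by
      rw [trF_apply, trace_mul_comm]
      exact h y hy)
  let x : Fin n → Matrix B B ℂ := fun i => (b' i : Matrix B B ℂ)
  let Y : Fin n → Matrix B B ℂ := fun i => trace p • y i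
  have hx : ∀ i, x i ∈ pos G P Q := fun i => (b' i).2
  have hY : ∀ i, Y i ∈ pos G Q P := fun i => Submodule.smul_mem _ _ (hy i)
  have htr : ∀ i j, trace (x i * Y j) = if i = j then trace p else 0 := by
    intro i j
    have h1 := hyb j (b' i)
    rw [trF_apply, Basis.repr_self, Finsupp.single_apply] at h1
    change trace (x i * trace p • y j) = _
    rw [mul_smul_comm, trace_smul, h1, smul_eq_mul, mul_ite, mul_one, mul_zero]
  have pol := Pool.Agent.K9h17.B.hpol H k h0
  have pol' := Pool.Agent.K9h17.B.hpol' H k h0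
  have D : Dual2 G P Q x Y :=
    { hx := hx
      hy := hY
      sx := fun z hz => ⟨fun i => b'.repr ⟨z, hz⟩ i, by
        have h4 := congrArg Subtype.val (b'.sum_repr ⟨z, hz⟩)
        refine h4.symm.trans ?_
        rw [Submodule.coe_sum]
        rfl⟩
      sy := fun z hz => ⟨fun i => trF B (b' i) z * (trace p)⁻¹, by
        refine (hys z hz).trans (Finset.sum_congr rfl fun i _ => ?_)
        change _ = _ • (trace p • y i)
        rw [smul_smul, mul_assoc, inv_mul_cancel₀ htp, mul_one]⟩
      t := fun i j l => by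
        have h1 := pol _ _ _ (hx i) (hx l) (hY j)
        rw [htr, htr] at h1
        apply smul_right_injective _ htp
        change trace p • (x i * Y j * x l + x l * Y j * x i) = _
        rw [h1]
        change _ = trace p • (_ + _)
        rw [smul_add, smul_ite, smul_ite, smul_zero, ite_smul, ite_smul, zero_smul, zero_smul]
      t' := fun i j l => by
        have h1 := pol' _ _ _ (hY i) (hY l) (hx j)
        rw [trace_mul_comm, trace_mul_comm (Y l), htr, htr] at h1
        apply smul_right_injective _ htp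
        change trace p • (Y i * x j * Y l + Y l * x j * Y i) = _
        rw [h1]
        change _ = trace p • (_ + _)
        rw [smul_add, smul_ite, smul_ite, smul_zero, ite_smul, ite_smul, zero_smul, zero_smul]
        simp only [eq_comm (a := j)] }
  have hP0 : P ≠ 0 := by
    intro h1
    apply k.ne
    rw [← k.mem.2.1, h1, zero_mul]
  have hQ0 : Q ≠ 0 := by
    intro h1
    apply k.ne
    rw [← k.mem.2.2, h1, mul_zero]
  obtain ⟨t, ht, htr1⟩ := GLd.main n _ _ (D.gl H hirr) hP0
  obtain ⟨s, hs, hsr1⟩ := GLd.main n _ _ (D.symm.gl H.symm hirr.symm) hQ0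
  refine ⟨n, x, Y, s, t, D, ?_, ?_, ?_, ht, hs⟩
  · -- an element of the basis
    obtain ⟨c, hc⟩ := D.sx e k.mem
    obtain ⟨j, hj⟩ : ∃ j, x j ≠ 0 := by
      by_contra hcon
      push Not at hcon
      apply k.ne
      rw [hc]
      exact Finset.sum_eq_zero fun i _ => by rw [hcon, smul_zero]
    have h1 : (∑ i, x i * Y i) * x j + x j * ∑ i, Y i * x i = ((n : ℂ) + 1) • x j := by
      rw [Finset.sum_mul, Finset.mul_sum, ← Finset.sum_add_distrib]
      have h2 : ∀ i, x i * Y i * x j + x j * (Y i * x i) = x j + if j = i then x i else 0 := by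
        intro i
        rw [← mul_assoc, D.t, if_pos rfl]
      rw [Finset.sum_congr rfl fun i _ => h2 i, Finset.sum_add_distrib,
        Finset.sum_ite_eq Finset.univ j, if_pos (Finset.mem_univ _), Finset.sum_const,
        Finset.card_univ, Fintype.card_fin, add_smul, one_smul, Nat.cast_smul_eq_nsmul]
    rw [ht, hs, smul_mul_assoc, mul_smul_comm, (hx j).2.1, (hx j).2.2, ← add_smul, ← sub_eq_zero,
      ← sub_smul] at h1
    have h2 := sub_eq_zero.1 ((smul_eq_zero.1 h1).resolve_right hj)
    have h3 : (s : ℂ) + t = n + 1 := by rw [← h2]; ring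
    exact_mod_cast h3
  · have h1 := htr1
    rw [H.trP] at h1
    exact_mod_cast h1
  · have h1 := hsr1
    rw [H.trQ] at h1
    exact_mod_cast h1

/-- Equal binomial coefficients are in the middle. -/
theorem middle {n s t : ℕ} (hst : s + t = n + 1) (h : n.choose t = n.choose s)
    (h0 : 0 < n.choose t) : s = t := by
  have h4 := Nat.choose_symm_of_eq_add (n := n) (a := t) (b := n - t)
  rcases Nat.eq_zero_or_pos t with h5 | h5
  · subst h5
    rw [Nat.choose_eq_zero_of_lt (show n < s by omega)] at h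
    rw [Nat.choose_zero_right] at h
    omega
  · have h6 : t ≤ n := by
      by_contra h7
      rw [Nat.choose_eq_zero_of_lt (by omega)] at h0
      omega
    have h8 : n.choose s = n.choose (t - 1) := by
      have h9 : n = s + (t - 1) := by omega
      exact Nat.choose_symm_of_eq_add h9
    obtain ⟨r, rfl⟩ : ∃ r, t = r + 1 := ⟨t - 1, by omega⟩
    rw [Nat.add_sub_cancel] at h8
    have h10 := Nat.choose_succ_right_eq n r
    rw [h, h8] at h10
    have h11 : 0 < n.choose r := by
      rw [← h8, ← h]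
      exact h0
    have h12 := Nat.eq_of_mul_eq_mul_left h11 h10
    omega

/-- **The invariant form** in the binomial case. -/
theorem exists_form_bin (H : LieP G P Q a a) (hR : P + Q ∈ G) (hI : IrrXY G P Q) (ha : 0 < a)
    {e f p q : Matrix B B ℂ} (k : TrpP G P Q e f p q)
    (h0 : ∀ x ∈ pos G P Q, (P - p) * x * (Q - q) = 0) :
    ∃ N : Matrix B B ℂ, N ≠ 0 ∧ ∀ X ∈ G, ∃ μ : ℂ, Xᵀ * N + N * X = μ • N := by
  obtain ⟨n, x, y, s, t, D, hst, h1, h2, hx, hy⟩ := exists_dual2 H k h0 hI
  have hs : s = t := middle hst (by rw [← h1, ← h2]) (by rw [← h1]; exact ha)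
  subst hs
  have hgl := full_gl H hI D
  have hP0 : P ≠ 0 := by
    intro h1
    apply k.ne
    rw [← k.mem.2.1, h1, zero_mul]
  have hR0 : P + Q ≠ 0 := by
    intro h3
    apply hP0
    have h4 := congrArg (fun z => z * P) h3
    beta_reduce at h4
    rwa [add_mul, H.PP, H.QP, add_zero, zero_mul] at h4
  have hsum : ∑ i, fullE Q x y i i = (s : ℂ) • (P + Q) := by
    rw [Fin.sum_univ_succ, full_zz, Finset.sum_congr rfl fun i _ => full_ss i i,
      Finset.sum_add_distrib, hx]
    simp only [if_true]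
    rw [Finset.sum_sub_distrib, hy, Finset.sum_const, Finset.card_univ, Fintype.card_fin,
      ← Nat.cast_smul_eq_nsmul ℂ]
    have h3 : (n : ℂ) = 2 * s - 1 := by
      have h4 : ((s + s : ℕ) : ℂ) = ((n + 1 : ℕ) : ℂ) := by rw [hst]
      push_cast at h4
      linear_combination -h4
    rw [h3]
    module
  obtain ⟨N, N', hN, hN', e1, e2, e3, e4, e5, e6⟩ := exists_self_dual hgl hR0 hsum
    (by omega : n + 1 = 2 * s)
  refine ⟨N, ?_, ?_⟩
  · intro h3
    apply hR0
    rw [← e1, h3, mul_zero]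
  -- the elements of degree one and minus one
  have hxN : ∀ z ∈ pos G P Q, zᵀ * N + N * z = 0 := by
    intro z hz
    obtain ⟨c, rfl⟩ := D.sx z hz
    rw [transpose_sum, Finset.sum_mul, Finset.mul_sum, ← Finset.sum_add_distrib]
    refine Finset.sum_eq_zero fun i _ => ?_
    have h3 := hN i.succ 0
    rw [full_sz, if_neg (Fin.succ_ne_zero i), zero_sub, neg_mul] at h3
    rw [transpose_smul, smul_mul_assoc, mul_smul_comm, h3, smul_neg, add_neg_cancel]
  have hyN : ∀ z ∈ pos G Q P, zᵀ * N + N * z = 0 := by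
    intro z hz
    obtain ⟨c, rfl⟩ := D.sy z hz
    rw [transpose_sum, Finset.sum_mul, Finset.mul_sum, ← Finset.sum_add_distrib]
    refine Finset.sum_eq_zero fun i _ => ?_
    have h3 := hN 0 i.succ
    rw [full_zs, if_neg (Fin.succ_ne_zero i).symm, zero_sub, neg_mul] at h3
    rw [transpose_smul, smul_mul_assoc, mul_smul_comm, h3, smul_neg, add_neg_cancel]
  have hQN : N * Q = (P + Q)ᵀ * N - Qᵀ * N := by
    have h3 := hN 0 0
    rwa [full_zz, if_pos rfl, sub_mul] at h3
  -- the elements of degree zero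
  have hz : ∀ z ∈ G, P * z = z * P → ∃ μ : ℂ, zᵀ * N + N * z = μ • N := by
    intro z hz hzP
    have hzQ := H.comm_Q hz hzP
    obtain ⟨M, hM⟩ : ∃ M, M = zᵀ * N + N * z := ⟨_, rfl⟩
    have hRM : (P + Q)ᵀ * M = M := by
      rw [hM, mul_add, ← mul_assoc, ← mul_assoc, ← transpose_mul, H.ler z hz, e4]
    have gen : ∀ u : Matrix B B ℂ, uᵀ * N + N * u = 0 →
        (z * u - u * z)ᵀ * N + N * (z * u - u * z) = 0 → M * u = -(uᵀ * M) := by
      intro u hu hu'
      have a1 : N * u = -(uᵀ * N) := eq_neg_of_add_eq_zero_right hu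
      rw [transpose_sub, transpose_mul, transpose_mul] at hu'
      have a2 : M * u + uᵀ * M = 0 := by
        have a3 : M * u + uᵀ * M = zᵀ * (N * u) + (N * z * u) + uᵀ * zᵀ * N + (uᵀ * N) * z := by
          rw [hM]; noncomm_ring
        have a4 : uᵀ * N = -(N * u) := by rw [a1, neg_neg]
        have a5 : zᵀ * (N * u) = -(zᵀ * uᵀ * N) := by rw [a1]; noncomm_ring
        have a6 : uᵀ * N * z = -(N * u * z) := by rw [a4]; noncomm_ring
        rw [a3, a5, a6, ← hu']
        noncomm_ring
      exact eq_neg_of_add_eq_zero_left a2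
    have hMx : ∀ i, M * x i = -((x i)ᵀ * M) := fun i =>
      gen _ (hxN _ (D.hx i)) (hxN _ (H.br_pos (D.hx i) hz hzP hzQ))
    have hMy : ∀ i, M * y i = -((y i)ᵀ * M) := fun i =>
      gen _ (hyN _ (D.hy i)) (hyN _ (H.symm.br_pos (D.hy i) hz hzQ hzP))
    have hMQ : M * Q = M - Qᵀ * M := by
      have a1 : N * Q = N - Qᵀ * N := by rw [hQN, e4]
      have a2 : Qᵀ * zᵀ = zᵀ * Qᵀ := by rw [← transpose_mul, ← transpose_mul, hzQ]
      have a3 : M * Q + Qᵀ * M = zᵀ * (N * Q) + N * (z * Q) + Qᵀ * zᵀ * N + Qᵀ * N * z := by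
        rw [hM]; noncomm_ring
      have a4 : N * (z * Q) = (N * Q) * z := by rw [← hzQ, mul_assoc]
      rw [eq_sub_iff_add_eq, a3, a4, a1, a2, hM]
      noncomm_ring
    have hME : ∀ i j, M * fullE Q x y i j =
        ((if i = j then (P + Q)ᵀ else 0) - (fullE Q x y i j)ᵀ) * M := by
      intro i j
      induction i using Fin.cases with
      | zero =>
        induction j using Fin.cases with
        | zero => rw [full_zz, if_pos rfl, sub_mul, hRM, hMQ]
        | succ j =>
          rw [full_zs, if_neg (Fin.succ_ne_zero j).symm, zero_sub, neg_mul, hMy]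
      | succ i =>
        induction j using Fin.cases with
        | zero => rw [full_sz, if_neg (Fin.succ_ne_zero i), zero_sub, neg_mul, hMx]
        | succ j =>
          rw [full_ss]
          have a1 : M * (x i * y j) = (x i)ᵀ * (y j)ᵀ * M := by
            rw [← mul_assoc, hMx, neg_mul, mul_assoc, hMy, mul_neg, neg_neg, mul_assoc]
          have a2 : M * (y j * x i) = (y j)ᵀ * (x i)ᵀ * M := by
            rw [← mul_assoc, hMy, neg_mul, mul_assoc, hMx, mul_neg, neg_neg, mul_assoc]
          rw [mul_add, mul_sub, a1, a2]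
          simp only [Fin.succ_inj]
          split_ifs
          · rw [hMQ, sub_mul, hRM, transpose_add (x i * y j), transpose_sub, transpose_mul,
              transpose_mul, add_mul, sub_mul]
            abel
          · rw [mul_zero, zero_sub, zero_sub, zero_sub, transpose_add, transpose_neg,
              transpose_mul, transpose_mul]
            noncomm_ring
    obtain ⟨κ, hκ⟩ := hgl.schur (c := N' * M) (by rw [← mul_assoc, e6]) (by
        rw [mul_assoc]
        congr 1
        rw [hM, add_mul, mul_assoc, mul_assoc, e3, H.ler z hz]) (fun i j => by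
        rw [mul_assoc, hME, ← mul_assoc, hN', mul_assoc])
    refine ⟨κ, ?_⟩
    rw [← hM, ← hRM, ← e2, mul_assoc, hκ, mul_smul_comm, e3]
  -- all elements
  intro X hX
  have HI := lieI_of H hR
  have b1 := hxN (P * X * Q) ⟨HI.grP hX, by rw [← mul_assoc, ← mul_assoc, H.PP],
    by rw [mul_assoc _ Q, H.QQ]⟩
  have b2 := hyN (Q * X * P) ⟨HI.grQ hX, by rw [← mul_assoc, ← mul_assoc, H.QQ],
    by rw [mul_assoc _ P, H.PP]⟩
  obtain ⟨μ, b3⟩ := hz (P * X * P + Q * X * Q) (HI.gr0 hX) (HI.gr0_comm X)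
  refine ⟨μ, ?_⟩
  have b4 : X = P * X * P + Q * X * Q + P * X * Q + Q * X * P := by
    have b5 : X = (P + Q) * X * (P + Q) := by rw [H.lel X hX, H.ler X hX]
    nth_rewrite 1 [b5]
    noncomm_ring
  have b5 : Xᵀ = (P * X * P + Q * X * Q)ᵀ + (P * X * Q)ᵀ + (Q * X * P)ᵀ := by
    rw [← transpose_add, ← transpose_add, ← b4]
  have b6 : N * X = N * (P * X * P + Q * X * Q) + N * (P * X * Q) + N * (Q * X * P) := by
    rw [← mul_add, ← mul_add, ← b4]
  rw [b5, b6, add_mul, add_mul]
  have b7 : (P * X * P + Q * X * Q)ᵀ * N + (P * X * Q)ᵀ * N + (Q * X * P)ᵀ * N +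
      (N * (P * X * P + Q * X * Q) + N * (P * X * Q) + N * (Q * X * P)) =
      ((P * X * P + Q * X * Q)ᵀ * N + N * (P * X * P + Q * X * Q)) +
        ((P * X * Q)ᵀ * N + N * (P * X * Q)) + ((Q * X * P)ᵀ * N + N * (Q * X * P)) := by abel
  rw [b7, b1, b2, b3, add_zero, add_zero]

/-- **The invariant form** if there are no elements of rank one. -/
theorem exists_form_any (H : LieP G P Q a a) (hR : P + Q ∈ G) (hI : IrrXY G P Q) (hodd : Odd a)
    (hNR : NR1 G P Q) :
    ∃ N : Matrix B B ℂ, N ≠ 0 ∧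
      ∀ X ∈ G, ∃ μ : ℂ, ∀ v v' : B → ℂ,
        (X *ᵥ v) ⬝ᵥ (N *ᵥ v') + v ⬝ᵥ (N *ᵥ (X *ᵥ v')) = μ * (v ⬝ᵥ (N *ᵥ v')) := by
  have ha : 0 < a := hodd.pos
  obtain ⟨e, he⟩ := exists_min H ha ha
  obtain ⟨f, hf, hefe, hfef⟩ := exists_partner H he.1.1
  have k := trp_of_pair H he hf hefe hfef
  obtain ⟨m, hm⟩ : ∃ m : ℕ, trace (e * f) = m := ⟨_, trace_idemM k.pp⟩
  have hm0 : 1 ≤ m := by
    rcases Nat.eq_zero_or_pos m with h3 | h3
    · exfalso
      apply trp_ne k
      rw [hm, h3, Nat.cast_zero]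
    · exact h3
  have hm2 := k.two_le hNR hm hm0
  by_cases h0 : ∀ x ∈ pos G P Q, (P - e * f) * x * (Q - f * e) = 0
  · obtain ⟨N, hN0, hN⟩ := exists_form_bin H hR hI ha k h0
    refine ⟨N, hN0, fun X hX => ?_⟩
    obtain ⟨μ, hμ⟩ := hN X hX
    refine ⟨μ, fun v v' => ?_⟩
    have h1 : (X *ᵥ v) ⬝ᵥ (N *ᵥ v') = v ⬝ᵥ ((Xᵀ * N) *ᵥ v') := by
      rw [← mulVec_mulVec, dotProduct_mulVec v, vecMul_transpose]
    rw [h1, mulVec_mulVec, ← dotProduct_add, ← add_mulVec, hμ, smul_mulVec, dotProduct_smul,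
      smul_eq_mul]
  · push Not at h0
    obtain ⟨x, hx, hx0⟩ := h0
    have ht : trace (e * f) ≠ 1 := by
      rw [hm]
      intro h3
      have h4 : m = 1 := by exact_mod_cast h3
      omega
    have hf' := isMin_symm H he hf hefe hfef
    have k' := trp_symm H k
    have hR' : Q + P ∈ G := by rwa [add_comm]
    have ht' : trace (f * e) ≠ 1 := by rw [trace_mul_comm]; exact ht
    have hy : ∃ y ∈ pos G Q P, (Q - f * e) * y * (P - e * f) ≠ 0 := by
      by_contra hcon
      push Not at hcon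
      exact hx0 (no_two_symm H.symm k' hcon x hx)
    obtain ⟨y, hy, hy0⟩ := hy
    have fP : ∀ w, P * w = w → w * P = w → w ∈ LieI.cor G P := fun w h1 h2 =>
      full_P H hR hI hodd he hf hefe hfef ht hx hx0 h1 h2
    have fQ : ∀ w, Q * w = w → w * Q = w → w ∈ LieI.cor G Q := fun w h1 h2 =>
      full_P H.symm hR' hI.symm hodd hf' he.1.1 hfef hefe ht' hy hy0 h1 h2
    have hP0 : P ≠ 0 := by
      intro h3
      have h4 := H.trP
      rw [h3, trace_zero] at h4
      have h5 : a = 0 := by exact_mod_cast h4.symm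
      omega
    have hQ0 : Q ≠ 0 := by
      intro h3
      have h4 := H.trQ
      rw [h3, trace_zero] at h4
      have h5 : a = 0 := by exact_mod_cast h4.symm
      omega
    have hPp : P - e * f ≠ 0 := by
      intro h3
      apply hx0
      rw [h3, zero_mul, zero_mul]
    have c : Ctx G P Q a e f (e * f) (f * e) :=
      { H := H
        k := k
        kP := fun n hn h1 h2 => ker_scalar H.symm hI.symm hQ0 (nr1_symm H hNR) fP hn h1 h2
        kQ := fun n hn h1 h2 => ker_scalar H hI hP0 hNR fQ hn h1 h2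
        fP := fP
        fQ := fQ
        ht := ht
        hPp := hPp }
    have h3 : trace (P - e * f) ≠ 1 := by
      intro h4
      obtain ⟨v, φ, h5, -, -, -⟩ := exists_vec (k.idP H.PP) h4
      apply hx0
      refine hNR _ (k.mem0 hx) v fun u => ?_
      refine ⟨φ ⬝ᵥ ((x * (Q - f * e)) *ᵥ u), ?_⟩
      rw [← vm, ← h5, mulVec_mulVec, ← mul_assoc]
    obtain ⟨v1, φ1, v2, φ2, t⟩ := exists_two k.pp c.p0 ht
    obtain ⟨Θ, T0, T1, T2, T3, T4, T5, T6⟩ := c.exTheta t
    obtain ⟨N, -, hN0, hN⟩ := c.exists_form t (Θ := Θ) ⟨T0, T1, T2, T3, T4, T5, T6⟩ h3 hI ha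
    exact ⟨N, hN0, hN⟩

end mat

end

end Pool.Agent.K9h17.F
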