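import Mathlib
import Pool.Agent.K9h17.F.Bil

/-!
# Elements of rank one in Lie algebras generated by involutions with equal odd multiplicities
-/

set_option linter.unusedSectionVars false

namespace Pool.Agent.K9h17.F

open Module Matrix
open Pool.Agent.Y4.G (trace_idemM)
open Pool.Agent.Y4.G.Lie (pos mem_pos)
open Pool.Agent.W548.Odd (rk)
open Pool.Agent.N183.JP
open Pool.Agent.K9h17.L Pool.Agent.K9h17.B

noncomputable section

variable {V : Type} [AddCommGroup V] [Module ℂ V] [FiniteDimensional ℂ V]
  {𝔤 : Submodule ℂ (End ℂ V)}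

/-- A form with multipliers is invariant. -/
theorem form_zero'
    (hirr : ∀ W : Submodule ℂ V, (∀ X ∈ 𝔤, X * X = (1 / 4 : ℂ) • 1 → ∀ u ∈ W, X u ∈ W) →
      W = ⊥ ∨ W = ⊤)
    (T : Set (End ℂ V)) (hT1 : ∀ X ∈ T, X ∈ 𝔤) (hT2 : ∀ X ∈ T, X * X = 1)
    (hgen : ∀ L : Submodule ℂ (End ℂ V), (∀ X ∈ T, X ∈ L) →
      (∀ X ∈ L, ∀ Y ∈ L, X * Y - Y * X ∈ L) → 𝔤 ≤ L)
    (hT : ∀ X ∈ T, LinearMap.trace ℂ V X = 0) (hn : finrank ℂ V ≠ 0)
    (hNB : ∀ β : V →ₗ[ℂ] V →ₗ[ℂ] ℂ,
        (∀ X ∈ 𝔤, ∀ u v, β (X u) v + β u (X v) = 0) → ∀ u v, β u v = 0)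
    (β : V →ₗ[ℂ] V →ₗ[ℂ] ℂ)
    (hβ : ∀ X ∈ 𝔤, ∃ μ : ℂ, ∀ u v, β (X u) v + β u (X v) = μ * β u v) : ∀ u v, β u v = 0 := by
  -- the radical
  have hrad : LinearMap.ker β = ⊥ ∨ LinearMap.ker β = ⊤ := by
    refine hirr _ fun X hX _ u hu => ?_
    obtain ⟨μ, hμ⟩ := hβ X hX
    rw [LinearMap.mem_ker] at hu ⊢
    refine LinearMap.ext fun v => ?_
    have h1 := hμ u v
    rw [hu, LinearMap.zero_apply, LinearMap.zero_apply, mul_zero, add_zero] at h1
    rw [h1, LinearMap.zero_apply]
  rcases hrad with hr | hr
  · have hinv : ∀ X ∈ 𝔤, ∀ u v, β (X u) v + β u (X v) = 0 := by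
      let L : Submodule ℂ (End ℂ V) :=
        { carrier := {X | ∀ u v, β (X u) v + β u (X v) = 0}
          zero_mem' := fun u v => by simp
          add_mem' := fun {X Y} hX hY u v => by
            rw [LinearMap.add_apply, LinearMap.add_apply, map_add, map_add, LinearMap.add_apply,
              add_add_add_comm, hX u v, hY u v, add_zero]
          smul_mem' := fun c X hX u v => by
            rw [LinearMap.smul_apply, LinearMap.smul_apply, map_smul, map_smul,
              LinearMap.smul_apply, ← smul_add, hX u v, smul_zero] }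
      refine fun X hX => hgen L (fun D hD => ?_) (fun X hX Y hY => ?_) hX
      · obtain ⟨μ, hμ⟩ := hβ D (hT1 D hD)
        have hDD := hT2 D hD
        have htr := hT D hD
        intro u v
        rw [hμ]
        by_cases hμ0 : μ = 0
        · rw [hμ0, zero_mul]
        exfalso
        have hDu : ∀ u, D (D u) = u := fun u => by
          have h1 := LinearMap.congr_fun hDD u
          exact h1
        -- the eigenspaces
        have h1 : ∀ u v, D u = u → D v = -v → β u v = 0 := by
          intro u v hu hv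
          have h2 := hμ u v
          rw [hu, hv, map_neg, add_neg_cancel] at h2
          exact (mul_eq_zero.1 h2.symm).resolve_left hμ0
        have h1' : ∀ u v, D u = -u → D v = v → β u v = 0 := by
          intro u v hu hv
          have h2 := hμ u v
          rw [hu, hv, map_neg, LinearMap.neg_apply, neg_add_cancel] at h2
          exact (mul_eq_zero.1 h2.symm).resolve_left hμ0
        have h2 : ∀ u v, D u = u → D v = v → (2 - μ) * β u v = 0 := by
          intro u v hu hv
          have h3 := hμ u v
          rw [hu, hv] at h3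
          linear_combination h3
        have h3 : ∀ u v, D u = -u → D v = -v → (2 + μ) * β u v = 0 := by
          intro u v hu hv
          have h3 := hμ u v
          rw [hu, hv, map_neg, map_neg, LinearMap.neg_apply] at h3
          linear_combination -h3
        have hdec : ∀ v : V, v = (1 / 2 : ℂ) • (v + D v) + (1 / 2 : ℂ) • (v - D v) := by
          intro v
          module
        have hp : ∀ v, D ((1 / 2 : ℂ) • (v + D v)) = (1 / 2 : ℂ) • (v + D v) := by
          intro v
          rw [map_smul, map_add, hDu, add_comm]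
        have hq : ∀ v, D ((1 / 2 : ℂ) • (v - D v)) = -((1 / 2 : ℂ) • (v - D v)) := by
          intro v
          rw [map_smul, map_sub, hDu, ← smul_neg, neg_sub]
        by_cases h4 : μ = 2
        · -- the second eigenspace vanishes
          have h5 : ∀ u, D u = -u → u = 0 := by
            intro u hu
            have h6 : u ∈ LinearMap.ker β := by
              rw [LinearMap.mem_ker]
              refine LinearMap.ext fun v => ?_
              rw [LinearMap.zero_apply, hdec v, map_add, h1' _ _ hu (hp v), zero_add]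
              have h7 := h3 _ _ hu (hq v)
              rw [h4] at h7
              exact (mul_eq_zero.1 h7).resolve_left (by norm_num)
            rwa [hr, Submodule.mem_bot] at h6
          have h6 : D = 1 := by
            refine LinearMap.ext fun v => ?_
            have h7 := h5 _ (hq v)
            rw [smul_eq_zero] at h7
            exact (sub_eq_zero.1 (h7.resolve_left (by norm_num))).symm
          rw [h6, LinearMap.trace_one] at htr
          exact hn (by exact_mod_cast htr)
        · have h5 : ∀ u, D u = u → u = 0 := by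
            intro u hu
            have h6 : u ∈ LinearMap.ker β := by
              rw [LinearMap.mem_ker]
              refine LinearMap.ext fun v => ?_
              rw [LinearMap.zero_apply, hdec v, map_add, h1 _ _ hu (hq v), add_zero]
              exact (mul_eq_zero.1 (h2 _ _ hu (hp v))).resolve_left
                (fun h => h4 (sub_eq_zero.1 h).symm)
            rwa [hr, Submodule.mem_bot] at h6
          have h6 : D = -1 := by
            refine LinearMap.ext fun v => ?_
            have h7 := h5 _ (hp v)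
            rw [smul_eq_zero] at h7
            rw [LinearMap.neg_apply]
            exact eq_neg_of_add_eq_zero_right (h7.resolve_left (by norm_num))
          rw [h6, map_neg, LinearMap.trace_one] at htr
          exact hn (by exact_mod_cast (neg_eq_zero.1 htr))
      · intro u v
        change β ((X * Y - Y * X) u) v + β u ((X * Y - Y * X) v) = 0
        rw [LinearMap.sub_apply, LinearMap.sub_apply, Module.End.mul_apply, Module.End.mul_apply,
          Module.End.mul_apply, Module.End.mul_apply, map_sub, map_sub, LinearMap.sub_apply]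
        have h1 := hX (Y u) v
        have h2 := hX u (Y v)
        have h3 := hY (X u) v
        have h4 := hY u (X v)
        linear_combination h1 - h3 + h2 - h4
    exact hNB β hinv
  · intro u v
    have h1 : u ∈ LinearMap.ker β := by rw [hr]; trivial
    rw [LinearMap.mem_ker] at h1
    rw [h1, LinearMap.zero_apply]

/-- **Elements of rank one**: an irreducible Lie algebra of trace zero generated by involutions,
if half the dimension is odd and if there is no invariant bilinear form. -/
theorem exists_rk1_odd' (hbr : ∀ X ∈ 𝔤, ∀ Y ∈ 𝔤, X * Y - Y * X ∈ 𝔤)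
    (hirr : ∀ W : Submodule ℂ V, (∀ X ∈ 𝔤, X * X = (1 / 4 : ℂ) • 1 → ∀ u ∈ W, X u ∈ W) →
      W = ⊥ ∨ W = ⊤)
    (T : Set (End ℂ V)) (hT1 : ∀ X ∈ T, X ∈ 𝔤) (hT2 : ∀ X ∈ T, X * X = 1)
    (hgen : ∀ L : Submodule ℂ (End ℂ V), (∀ X ∈ T, X ∈ L) →
      (∀ X ∈ L, ∀ Y ∈ L, X * Y - Y * X ∈ L) → 𝔤 ≤ L)
    (hT : ∀ X ∈ T, LinearMap.trace ℂ V X = 0)
    (hNB : ∀ β : V →ₗ[ℂ] V →ₗ[ℂ] ℂ,
        (∀ X ∈ 𝔤, ∀ u v, β (X u) v + β u (X v) = 0) → ∀ u v, β u v = 0)
    {D : End ℂ V} (hD : D ∈ 𝔤) (hD2 : D * D = 1) {a : ℕ} (hn : finrank ℂ V = a + a)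
    (hodd : Odd a) :
    ∃ x ∈ 𝔤, D * x = x ∧ x * D = -x ∧ rk x = 1 := by
  have ha : 0 < a := hodd.pos
  have htr0 : ∀ X ∈ 𝔤, LinearMap.trace ℂ V X = 0 := by
    have h1 : 𝔤 ≤ LinearMap.ker (LinearMap.trace ℂ V) := by
      refine hgen _ (fun X hX => by rw [LinearMap.mem_ker, hT X hX]) fun X _ Y _ => ?_
      rw [LinearMap.mem_ker, map_sub, LinearMap.trace_mul_comm, sub_self]
    exact fun X hX => LinearMap.mem_ker.1 (h1 hX)
  have htr : LinearMap.trace ℂ V D = (a : ℂ) - a := by rw [htr0 D hD, sub_self]
  by_contra hcon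
  push Not at hcon
  have hbr' := ads_br hbr
  have hirr' : ∀ W : Submodule ℂ V, (∀ X ∈ ads 𝔤, X * X = (1 / 4 : ℂ) • 1 → ∀ u ∈ W, X u ∈ W) →
      W = ⊥ ∨ W = ⊤ := fun W hW => hirr W fun X hX => hW X (le_ads hX)
  have hD' : D ∈ ads 𝔤 := le_ads hD
  have H := lieP hbr' hirr' hD' hD2 htr hn
  have hNR : NR1 (mG (ads 𝔤)) (mm V (prj D)) (mm V (prj (-D))) :=
    nr1 fun x hx h1 h2 => hcon x (up_ads hbr hD hD2 hx h1 h2) h1 h2
  have hsum : mm V (prj D) + mm V (prj (-D)) = 1 := by rw [← map_add, prj_add, map_one]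
  have hR : mm V (prj D) + mm V (prj (-D)) ∈ mG (ads 𝔤) := by
    rw [hsum, ← map_one (mm V)]
    exact mem_mG.2 one_ads
  have hI : IrrXY (mG (ads 𝔤)) (mm V (prj D)) (mm V (prj (-D))) := by
    intro U _ hU1 hU2
    rcases irr_up hbr hirr T hT1 hT2 hgen hD hD2 htr hn (fun D' hD' a' b' h1 h2 h3 h4 => by
        rw [hT D' hD'] at h1
        have h5 : a' = b' := by
          have h6 : (a' : ℂ) = b' := by linear_combination -h1
          exact_mod_cast h6
        subst h5
        have h6 : a' = a := by omega
        subst h6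
        rw [Nat.gcd_self]
        rintro ⟨r, hr⟩
        obtain ⟨s, hs⟩ := hodd
        have h7 : a' * (2 * r) = a' * a' := by rw [hr]; ring
        have h8 := Nat.eq_of_mul_eq_mul_left ha h7
        omega) (U.comap (cf V).toLinearMap)
      (fun x hx u hu => by
        rw [Submodule.mem_comap] at hu ⊢
        change cf V (x u) ∈ U
        rw [← mm_mulVec]
        refine hU1 _ ⟨mem_mG.2 (le_ads hx.1), ?_, ?_⟩ _ hu
        · rw [← map_mul, prj_of_D hx.2.1]
        · rw [← map_mul, prj_of_D' hx.2.2])
      (fun x hx u hu => by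
        rw [Submodule.mem_comap] at hu ⊢
        change cf V (x u) ∈ U
        rw [← mm_mulVec]
        refine hU2 _ ⟨mem_mG.2 (le_ads hx.1), ?_, ?_⟩ _ hu
        · rw [← map_mul, prj_of_D hx.2.1]
        · have h3 := prj_of_D' hx.2.2
          rw [neg_neg] at h3
          rw [← map_mul, h3]) with h1 | h1
    · left
      rw [Submodule.eq_bot_iff] at h1 ⊢
      intro u hu
      have h2 := h1 ((cf V).symm u) (by
        rw [Submodule.mem_comap]
        change cf V ((cf V).symm u) ∈ U
        rwa [LinearEquiv.apply_symm_apply])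
      rw [← (cf V).apply_symm_apply u, h2, map_zero]
    · right
      intro u _
      have h2 : (cf V).symm u ∈ U.comap (cf V).toLinearMap := by rw [h1]; trivial
      rw [Submodule.mem_comap] at h2
      change cf V ((cf V).symm u) ∈ U at h2
      rwa [LinearEquiv.apply_symm_apply] at h2
  obtain ⟨N, hN0, hN⟩ := exists_form_any H hR hI hodd hNR
  have hn0 : finrank ℂ V ≠ 0 := by omega
  have h1 := form_zero' hirr T hT1 hT2 hgen hT hn0 hNB
    ((Matrix.toBilin' N).compl₁₂ (cf V).toLinearMap (cf V).toLinearMap)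
    (fun X hX => by
      obtain ⟨μ, hμ⟩ := hN _ (mem_mG.2 (le_ads hX))
      refine ⟨μ, fun u v => ?_⟩
      change Matrix.toBilin' N (cf V (X u)) (cf V v) + Matrix.toBilin' N (cf V u) (cf V (X v)) =
        μ * Matrix.toBilin' N (cf V u) (cf V v)
      rw [Matrix.toBilin'_apply', Matrix.toBilin'_apply', Matrix.toBilin'_apply', ← mm_mulVec,
        ← mm_mulVec]
      exact hμ _ _)
  apply hN0
  refine Matrix.ext fun i j => ?_
  have h2 := h1 ((cf V).symm (Pi.single i 1)) ((cf V).symm (Pi.single j 1))
  change Matrix.toBilin' N (cf V ((cf V).symm (Pi.single i 1)))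
    (cf V ((cf V).symm (Pi.single j 1))) = 0 at h2
  rw [LinearEquiv.apply_symm_apply, LinearEquiv.apply_symm_apply, Matrix.toBilin'_apply',
    mulVec_single_one, single_one_dotProduct] at h2
  exact h2

end

end Pool.Agent.K9h17.F
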