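import Mathlib
import Pool.Agent.K9h17.C.Stm

/-!
# Simple abelian varieties of type IV with balanced signatures of odd size
-/

namespace Pool.Agent.K9h17.F

open Module Pool.Agent.Y90 Pool.Agent.R915 Pool.Agent.N183.U5 Polynomial

/-- `Y` is of type IV (the centre of the endomorphism algebra, generated by `φ`, is a totally
imaginary field) and there is an odd number `p` such that the relative dimension is `2 p` and each
embedding `s` of a maximal subfield `ℚ[a]` has the multiplicity `p` on the tangent space of `Y`. (The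
relative signatures are `(p, p)`; if `ℚ[a]` is an imaginary quadratic field then `Y` is an abelian
variety of Weil type.) -/
def BalancedIV (Y : AV) : Prop :=
  ∃ (a : Module.End ℚ Y.H) (Ψ : Module.End ℂ Y.T) (p : ℕ), MaxField Y a ∧
    (∀ v, Ψ (Y.per v) = Y.per (a v)) ∧ Odd p ∧
    (∀ s : ℂ, aeval s (minpoly ℚ a) = 0 → finrank ℂ (Ψ.eigenspace s) = p) ∧
    (minpoly ℚ a).natDegree * (p + p) = finrank ℚ Y.H ∧
    ∃ φ : Module.End ℚ Y.H, CentreGen Y φ ∧ ∀ s : ℂ, aeval s (minpoly ℚ φ) = 0 → s.im ≠ 0

end Pool.Agent.K9h17.F
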