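import Mathlib
import Pool.Agent.K9h17.T.Glob
import Pool.Agent.K9h17.C.Low
import Pool.Agent.K9h17.F.Loc
import Pool.Agent.K9h17.C.Quad

/-!
# The Tate conjecture in low codimension, all balanced signatures of odd size
-/

set_option linter.unusedSectionVars false

namespace Pool.Agent.K9h17.F

open Matrix Module Pool.Agent.W437.HC Pool.Agent.W437.HD Pool.Agent.W548.Odd
open Pool.Agent.H204R3.SP Pool.Agent.H204R3.GP Pool.Agent.Y90 Pool.Agent.Y224.TS TensorProduct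
open Pool.Agent.Y224.TS.St (IsHodgeTate IsTateModule)
open Pool.Agent.W437.HP (cK cK_mul cK_one)
open Pool.Agent.R915 (RealMax QuadMult HasCMult IsFactor Sys Unbalanced IsOfType EndQuad VE VE_stab)
open Pool.Agent.N183.TS Pool.Agent.N183.U5 Pool.Agent.K9h17.S Pool.Agent.K9h17.G
open Pool.Agent.K9h17.T Pool.Agent.K9h17.C
open Polynomial

noncomputable section

/-- Isogenies preserve the balanced class. -/
theorem balancedIV_iso {X Y : AV} {e : X.H ≃ₗ[ℚ] Y.H} (he : IsHom X Y e.toLinearMap)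
    (h : BalancedIV Y) : BalancedIV X := by
  obtain ⟨a, Ψ, p, k, hΨ, hodd, hp, hdim, φ, hφ, him⟩ := h
  obtain ⟨Ψ', h1, h2⟩ := exists_tan he hΨ
  refine ⟨cjg e a, Ψ', p, maxField_iso he k, h1, hodd, ?_, ?_, cjg e φ, centreGen_iso he hφ, ?_⟩
  · intro s hs
    rw [minpoly_cjg] at hs
    rw [h2]
    exact hp s hs
  · rw [minpoly_cjg, hdim, e.finrank_eq]
  · rw [minpoly_cjg]
    exact him

variable {K : Type} [Field K] [CharZero K] [Algebra K ℂ] {Γ : Type} [Group Γ]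

/-- **The Tate conjecture in low codimension.** -/
theorem tate_low [Algebra.IsAlgebraic K ℂ] (X : AV) {E : X.H → X.H → ℚ}
    (hE : Pool.Agent.Y90.St.IsPolarization X.per E)
    {ρ : Representation K Γ (K ⊗[ℚ] X.H)} {χ : Γ →* K} {N : ℕ}
    (hX : ∀ Y, IsFactor Y X → (Good X ρ Y ∨ UnbalancedMult Y ∨ ThreeMult X ρ Y ∨ BalancedIV Y) ∧
      IsLarge N Y) {n : ℂ → ℕ}
    (hn : IsCentreMult X n) (hs : IsSeparated n) (hρ : IsTateModule X.per E ρ χ) {m : ℕ}
    (hm : 2 * m < N) : TateGeneratedInCodim ρ χ m := by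
  classical
  obtain ⟨a, Z, hZ, b, hC, hb⟩ := exists_ppav' (AV.isAV X) hE
  have hTD : TD Z (SH X.per ρ χ b) := td_of b hb hC hρ
  obtain ⟨M, hM, hMn⟩ := hn.cg hZ hC
  have hfn : (fun s => pd Z (VE M s)) = n := funext hMn
  have hinc : ∀ (a' : ℕ) (Z' : Matrix (Fin a') (Fin a') ℂ)
      (E' : Matrix (Fin a ⊕ Fin a) (Fin a' ⊕ Fin a') ℚ)
      (F' : Matrix (Fin a' ⊕ Fin a') (Fin a ⊕ Fin a) ℚ), Fac Z Z' E' F' → ∀ h' : PM Z',
      IsSimpleAV Z' → 0 < a' → IsHom (AVZ h') X (inc h' b E') ∧ IsFactor (AVZ h') X := by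
    intro a' Z' E' F' hfac h' hsim ha
    have hs := R915.simple_of a' h' hsim ha
    obtain ⟨Ψ₁, h₁⟩ := h'.cht.hom hC (R := E') (by
      rw [DJ_JR, DJ_JR]
      exact hfac.de.symm)
    have hi : IsHom (AVZ h') X (inc h' b E') := ⟨Ψ₁, fun v => h₁ v⟩
    refine ⟨hi, hs, inc h' b E', hi, ?_⟩
    intro x y hxy
    have h2 : E' *ᵥ x = E' *ᵥ y := b.equivFun.symm.injective hxy
    have h3 := congrArg (fun v => F' *ᵥ v) h2
    beta_reduce at h3
    rw [mulVec_mulVec, mulVec_mulVec, hfac.fe, one_mulVec, one_mulVec] at h3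
    exact h3
  have hGd : Gd Z (SH X.per ρ χ b) := by
    refine gd_of hTD hZ ?_ hM (by rw [hfn]; exact hs.sep)
    intro a' Z' E' F' hfac h' hsim ha U hU hn
    have hs := R915.simple_of a' h' hsim ha
    obtain ⟨hi, hfa⟩ := hinc a' Z' E' F' hfac h' hsim ha
    have hT' := tdF hfac hTD hZ h'
    rcases (hX _ hfa).1 with (k | k | k | k | k | k) | k | k | k
    · exact (cls_all h' hT' hs ha (Or.inl k) hU hn).1
    · exact (cls_all h' hT' hs ha (Or.inr (Or.inl k)) hU hn).1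
    · exact (k.cls h' hT' hU hn).1
    · exact (cls_all h' hT' hs ha (Or.inr (Or.inr (Or.inr k))) hU hn).1
    · exact k.cls h' hT' (R915.simple_AVZ h' hs) ha hU hn
    · exact k.cls h' hZ hC hTD hfac (R915.simple_AVZ h' hs) ha hi hU hn
    · exact UnbalancedMult.cls h' hT' (R915.simple_AVZ h' hs) ha k hU
    · exact ThreeMult.cls h' hZ hC hTD hfac (R915.simple_AVZ h' hs) ha hi k hU hn
    · exact BalancedIV.cls hT' h' (R915.simple_AVZ h' hs) ha k hU
  refine generated_low b hZ hb hC hρ hTD hGd (N := N) ?_ hm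
  intro U hU
  obtain ⟨a', Z', E', F', hf, h', hs', ha, h0⟩ := exists_fac hZ hU.1
  have hs := R915.simple_of a' h' hs' ha
  obtain ⟨-, hfa⟩ := hinc a' Z' E' F' hf h' hs' ha
  exact LgU.of_fac hf hU h0 (IsLarge.lg h' (R915.simple_AVZ h' hs) ha (hX _ hfa).2 (hf.irr hU h0))

end

end Pool.Agent.K9h17.F
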